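import Pool.Agent.W565.MOFS

set_option autoImplicit false

/-!
A weighted inequality of Erdős–Turán type for the sawtooth function without its first harmonic.
-/

namespace Pool.Agent.W5h31.LC

open Finset Filter Topology
open Pool.Agent.H469R2.NK (e norm_e e_add)
open Pool.Agent.W565.MOFS (P2 cos_sum saw_lower saw_upper re_e norm_e_sub_one)

/-- the first harmonic of the second difference quotient -/
noncomputable def f1 {ι : Type} (S : Finset ι) (w x : ι → ℝ) (δ : ℝ) : ℝ :=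
  ∑ n ∈ S, w n * (Real.cos (2 * Real.pi * (x n + δ)) - Real.cos (2 * Real.pi * x n))

/-- the differences of `P2`, weighted, without the first harmonic -/
theorem diff_bound_w {ι : Type} (S : Finset ι) (w x : ι → ℝ) (hw : ∀ n ∈ S, 0 ≤ w n) (δ : ℝ) (K : ℕ)
    (hK : 1 ≤ K) :
    |∑ n ∈ S, w n * (P2 (Int.fract (x n + δ)) - P2 (Int.fract (x n))) - f1 S w x δ / Real.pi ^ 2| ≤
      1 / Real.pi ^ 2 * (∑ h ∈ Icc 2 K, 2 * Real.pi * |δ| / h * ‖∑ n ∈ S, (w n : ℂ) * e (h * x n)‖ +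
        2 * (∑ n ∈ S, w n) / K) := by
  set W : ℝ := ∑ n ∈ S, w n with hW
  have hW0 : 0 ≤ W := sum_nonneg hw
  set B : ℝ := ∑ h ∈ Icc 2 K, 2 * Real.pi * |δ| / h * ‖∑ n ∈ S, (w n : ℂ) * e (h * x n)‖ +
        2 * W / K with hB
  let f : ℕ → ℝ := fun h => ∑ n ∈ S, w n * (1 / (h : ℝ) ^ 2 * Real.cos (2 * Real.pi * h * (x n + δ)) -
    1 / (h : ℝ) ^ 2 * Real.cos (2 * Real.pi * h * x n))
  have hf : HasSum f (∑ n ∈ S, w n * (Real.pi ^ 2 * P2 (Int.fract (x n + δ)) -
      Real.pi ^ 2 * P2 (Int.fract (x n)))) :=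
    hasSum_sum fun n _ => ((cos_sum (x n + δ)).sub (cos_sum (x n))).mul_left _
  have hf0 : f 0 = 0 := by simp [f]
  have hfo : f 1 = f1 S w x δ := by
    simp only [f, f1]
    refine sum_congr rfl fun n _ => ?_
    simp
  have hf1 : ∀ h : ℕ, 1 ≤ h → |f h| ≤ 2 * Real.pi * |δ| / h * ‖∑ n ∈ S, (w n : ℂ) * e (h * x n)‖ := by
    intro h hh
    have hh0 : (0 : ℝ) < h := by exact_mod_cast hh
    have e1 : f h = 1 / (h : ℝ) ^ 2 * ((e (h * δ) - 1) * ∑ n ∈ S, (w n : ℂ) * e (h * x n)).re := by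
      simp only [f]
      rw [mul_sum, Complex.re_sum, mul_sum]
      refine sum_congr rfl fun n _ => ?_
      have e2 : (e (h * δ) - 1) * ((w n : ℂ) * e (h * x n)) =
          (w n : ℂ) * (e (h * (x n + δ)) - e (h * x n)) := by
        rw [mul_add, e_add]; ring
      rw [e2, Complex.re_ofReal_mul, Complex.sub_re, re_e, re_e]
      ring_nf
    rw [e1, abs_mul, abs_of_pos (by positivity : (0 : ℝ) < 1 / (h : ℝ) ^ 2)]
    have h2 : |((e (h * δ) - 1) * ∑ n ∈ S, (w n : ℂ) * e (h * x n)).re| ≤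
        (2 * Real.pi * (h * |δ|)) * ‖∑ n ∈ S, (w n : ℂ) * e (h * x n)‖ := by
      refine (Complex.abs_re_le_norm _).trans ?_
      rw [norm_mul]
      refine mul_le_mul_of_nonneg_right ?_ (norm_nonneg _)
      refine (norm_e_sub_one _).trans ?_
      rw [abs_mul, abs_of_pos hh0]
    calc 1 / (h : ℝ) ^ 2 * |((e (h * δ) - 1) * ∑ n ∈ S, (w n : ℂ) * e (h * x n)).re|
        ≤ 1 / (h : ℝ) ^ 2 * ((2 * Real.pi * (h * |δ|)) * ‖∑ n ∈ S, (w n : ℂ) * e (h * x n)‖) := by gcongr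
      _ = _ := by field_simp
  have hf2 : ∀ h : ℕ, |f h| ≤ ((h : ℝ) ^ 2)⁻¹ * (2 * W) := by
    intro h
    refine (abs_sum_le_sum_abs _ _).trans ?_
    have h2 : ∀ n ∈ S, |w n * (1 / (h : ℝ) ^ 2 * Real.cos (2 * Real.pi * h * (x n + δ)) -
        1 / (h : ℝ) ^ 2 * Real.cos (2 * Real.pi * h * x n))| ≤ ((h : ℝ) ^ 2)⁻¹ * 2 * w n := by
      intro n hn
      rw [← mul_sub, abs_mul, abs_mul, abs_of_nonneg (by positivity : (0 : ℝ) ≤ 1 / (h : ℝ) ^ 2), one_div,
        abs_of_nonneg (hw n hn)]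
      have h3 := Real.abs_cos_le_one (2 * Real.pi * h * (x n + δ))
      have h4 := Real.abs_cos_le_one (2 * Real.pi * h * x n)
      have h5 := abs_sub (Real.cos (2 * Real.pi * h * (x n + δ))) (Real.cos (2 * Real.pi * h * x n))
      have h6 : |Real.cos (2 * Real.pi * h * (x n + δ)) - Real.cos (2 * Real.pi * h * x n)| ≤ 2 := by
        linarith
      have h7 : (0 : ℝ) ≤ ((h : ℝ) ^ 2)⁻¹ := by positivity
      have h8 := hw n hn
      calc w n * (((h : ℝ) ^ 2)⁻¹ *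
            |Real.cos (2 * Real.pi * h * (x n + δ)) - Real.cos (2 * Real.pi * h * x n)|)
          ≤ w n * (((h : ℝ) ^ 2)⁻¹ * 2) := by gcongr
        _ = _ := by ring
    refine (sum_le_sum h2).trans ?_
    rw [← mul_sum]
    apply le_of_eq; ring
  have hK0 : (0 : ℝ) < K := by exact_mod_cast hK
  have hpart : ∀ M : ℕ, 2 ≤ M → |∑ h ∈ range M, f h - f 1| ≤ B := by
    intro M hM2
    have e0 : ∑ h ∈ range M, f h - f 1 = ∑ h ∈ Ico 2 M, f h := by
      rw [range_eq_Ico, sum_eq_sum_Ico_succ_bot (by omega : 0 < M),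
        sum_eq_sum_Ico_succ_bot (by omega : 0 + 1 < M), hf0]
      ring
    rw [e0]
    refine (abs_sum_le_sum_abs _ _).trans ?_
    have hM : Ico 2 M ⊆ (Icc 2 K ∪ Ioc K (max K M)) := by
      intro h hh
      rw [mem_Ico] at hh
      rw [mem_union, mem_Icc, mem_Ioc]
      by_cases h2 : h ≤ K
      · exact Or.inl ⟨by omega, h2⟩
      · exact Or.inr ⟨by omega, le_max_of_le_right hh.2.le⟩
    refine (sum_le_sum_of_subset_of_nonneg hM (fun _ _ _ => abs_nonneg _)).trans ?_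
    have hdisj : Disjoint (Icc 2 K) (Ioc K (max K M)) := by
      rw [disjoint_left]
      intro a ha ha'
      rw [mem_Icc] at ha
      rw [mem_Ioc] at ha'
      omega
    rw [sum_union hdisj, hB]
    refine add_le_add (sum_le_sum fun h hh => hf1 h (by have := (mem_Icc.1 hh).1; omega)) ?_
    refine (sum_le_sum fun h _ => hf2 h).trans ?_
    rw [← sum_mul]
    have h5 := sum_Ioc_inv_sq_le_sub (α := ℝ) (k := K) (n := max K M) (by omega) (le_max_left _ _)
    have h6 : (0 : ℝ) ≤ ((max K M : ℕ) : ℝ)⁻¹ := by positivity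
    calc (∑ h ∈ Ioc K (max K M), ((h : ℝ) ^ 2)⁻¹) * (2 * W)
        ≤ (K : ℝ)⁻¹ * (2 * W) := by
          refine mul_le_mul_of_nonneg_right ?_ (by positivity)
          linarith
      _ = 2 * W / K := by rw [div_eq_mul_inv]; ring
  have hlim : |∑ n ∈ S, w n * (Real.pi ^ 2 * P2 (Int.fract (x n + δ)) -
      Real.pi ^ 2 * P2 (Int.fract (x n))) - f 1| ≤ B :=
    le_of_tendsto ((hf.tendsto_sum_nat.sub_const (f 1)).abs)
      ((eventually_ge_atTop 2).mono fun M hM => hpart M hM)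
  have hpi : (0 : ℝ) < Real.pi ^ 2 := by positivity
  have e3 : ∑ n ∈ S, w n * (P2 (Int.fract (x n + δ)) - P2 (Int.fract (x n))) - f1 S w x δ / Real.pi ^ 2 =
      1 / Real.pi ^ 2 *
      (∑ n ∈ S, w n * (Real.pi ^ 2 * P2 (Int.fract (x n + δ)) - Real.pi ^ 2 * P2 (Int.fract (x n))) -
        f 1) := by
    rw [hfo, mul_sub, mul_sum]
    congr 1
    · refine sum_congr rfl fun n _ => ?_
      field_simp
    · field_simp
  rw [e3, abs_mul, abs_of_pos (by positivity : (0 : ℝ) < 1 / Real.pi ^ 2)]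
  exact mul_le_mul_of_nonneg_left hlim (by positivity)

/-- second order Taylor bound for the cosine -/
lemma cos_taylor (a h : ℝ) : |Real.cos (a + h) - Real.cos a + h * Real.sin a| ≤ h ^ 2 := by
  have h1 : Real.cos (a + h) - Real.cos a + h * Real.sin a =
      Real.cos a * (Real.cos h - 1) - Real.sin a * (Real.sin h - h) := by
    rw [Real.cos_add]; ring
  rw [h1]
  have h2 : |Real.cos h - 1| ≤ h ^ 2 / 2 := by
    have := Real.one_sub_sq_div_two_le_cos (x := h)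
    have h3 := Real.cos_le_one h
    rw [abs_sub_comm, abs_of_nonneg (by linarith)]
    linarith
  have h3 : |Real.sin h - h| ≤ h ^ 2 / 2 := by
    have key : ∀ y : ℝ, 0 ≤ y → |Real.sin y - y| ≤ y ^ 2 / 2 := by
      intro y hy
      rcases eq_or_lt_of_le hy with rfl | hy0
      · simp
      have h4 := Real.sin_lt hy0
      rw [abs_sub_comm, abs_of_nonneg (by linarith)]
      have h5 := Real.sin_gt_sub_cube hy0
      rcases le_or_gt y 3 with hy3 | hy3
      · have h6 : y ^ 3 ≤ 3 * y ^ 2 := by nlinarith [sq_nonneg y]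
        linarith
      · have h7 := Real.neg_one_le_sin y
        nlinarith
    rcases le_total 0 h with hh | hh
    · exact key h hh
    · have := key (-h) (by linarith)
      rw [Real.sin_neg] at this
      have e1 : -Real.sin h - -h = -(Real.sin h - h) := by ring
      rw [e1, abs_neg] at this
      rwa [neg_sq] at this
  have h4 := Real.abs_cos_le_one a
  have h5 := Real.abs_sin_le_one a
  calc |Real.cos a * (Real.cos h - 1) - Real.sin a * (Real.sin h - h)|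
      ≤ |Real.cos a * (Real.cos h - 1)| + |Real.sin a * (Real.sin h - h)| := abs_sub _ _
    _ = |Real.cos a| * |Real.cos h - 1| + |Real.sin a| * |Real.sin h - h| := by rw [abs_mul, abs_mul]
    _ ≤ 1 * (h ^ 2 / 2) + 1 * (h ^ 2 / 2) := by gcongr
    _ = h ^ 2 := by ring

/-- weighted inequality for the sawtooth function without its first harmonic -/
theorem saw_w {ι : Type} (S : Finset ι) (w x : ι → ℝ) (hw : ∀ n ∈ S, 0 ≤ w n) (δ : ℝ) (hδ0 : 0 < δ)
    (hδ1 : δ ≤ 1) (K : ℕ) (hK : 1 ≤ K) :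
    |∑ n ∈ S, w n * (Int.fract (x n) - 1 / 2 + Real.sin (2 * Real.pi * x n) / Real.pi)| ≤
      ∑ h ∈ Icc 2 K, ‖∑ n ∈ S, (w n : ℂ) * e (h * x n)‖ / h + (∑ n ∈ S, w n) / (K * δ) +
        3 * δ * ∑ n ∈ S, w n := by
  set W : ℝ := ∑ n ∈ S, w n with hW
  have hW0 : 0 ≤ W := sum_nonneg hw
  have hK0 : (0 : ℝ) < K := by exact_mod_cast hK
  have hpi : 3 < Real.pi := Real.pi_gt_three
  have hpi0 : 0 < Real.pi := Real.pi_pos
  set D : ℝ := 1 / Real.pi ^ 2 * (∑ h ∈ Icc 2 K, 2 * Real.pi * δ / h *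
    ‖∑ n ∈ S, (w n : ℂ) * e (h * x n)‖ + 2 * W / K) with hD
  set SI : ℝ := ∑ n ∈ S, w n * (Real.sin (2 * Real.pi * x n) / Real.pi) with hSI
  have hu : |∑ n ∈ S, w n * (P2 (Int.fract (x n + δ)) - P2 (Int.fract (x n))) -
      f1 S w x δ / Real.pi ^ 2| ≤ D := by
    have := diff_bound_w S w x hw δ K hK
    rwa [abs_of_pos hδ0] at this
  have hl : |∑ n ∈ S, w n * (P2 (Int.fract (x n + -δ)) - P2 (Int.fract (x n))) -
      f1 S w x (-δ) / Real.pi ^ 2| ≤ D := by
    have := diff_bound_w S w x hw (-δ) K hK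
    rwa [abs_neg, abs_of_pos hδ0] at this
  -- the first harmonic
  have hf1 : ∀ s : ℝ, |s| = δ → |f1 S w x s / Real.pi ^ 2 + 2 * s * SI| ≤ 4 * δ ^ 2 * W := by
    intro s hs
    have e1 : f1 S w x s / Real.pi ^ 2 + 2 * s * SI = ∑ n ∈ S, w n * (1 / Real.pi ^ 2 *
        (Real.cos (2 * Real.pi * x n + 2 * Real.pi * s) - Real.cos (2 * Real.pi * x n) +
          2 * Real.pi * s * Real.sin (2 * Real.pi * x n))) := by
      rw [f1, hSI, sum_div, mul_sum, ← sum_add_distrib]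
      refine sum_congr rfl fun n _ => ?_
      rw [show 2 * Real.pi * (x n + s) = 2 * Real.pi * x n + 2 * Real.pi * s by ring]
      field_simp
    rw [e1]
    refine (abs_sum_le_sum_abs _ _).trans ?_
    rw [mul_sum]
    apply sum_le_sum
    intro n hn
    rw [abs_mul, abs_of_nonneg (hw n hn), abs_mul, abs_of_pos (by positivity : (0:ℝ) < 1 / Real.pi ^ 2)]
    have h1 := cos_taylor (2 * Real.pi * x n) (2 * Real.pi * s)
    have h2 : (2 * Real.pi * s) ^ 2 = 4 * Real.pi ^ 2 * δ ^ 2 := by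
      rw [← hs]
      rw [mul_pow, sq_abs]; ring
    rw [h2] at h1
    have h3 := hw n hn
    calc w n * (1 / Real.pi ^ 2 * |Real.cos (2 * Real.pi * x n + 2 * Real.pi * s) -
          Real.cos (2 * Real.pi * x n) + 2 * Real.pi * s * Real.sin (2 * Real.pi * x n)|)
        ≤ w n * (1 / Real.pi ^ 2 * (4 * Real.pi ^ 2 * δ ^ 2)) := by gcongr
      _ = 4 * δ ^ 2 * w n := by field_simp
  have hfu := hf1 δ (abs_of_pos hδ0)
  have hfl := hf1 (-δ) (by rw [abs_neg, abs_of_pos hδ0])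
  have esum : ∑ n ∈ S, w n * (Int.fract (x n) - 1 / 2 + Real.sin (2 * Real.pi * x n) / Real.pi) =
      ∑ n ∈ S, w n * (Int.fract (x n) - 1 / 2) + SI := by
    rw [hSI, ← sum_add_distrib]
    exact sum_congr rfl fun n _ => by ring
  have hD0 : D / (2 * δ) ≤ ∑ h ∈ Icc 2 K, ‖∑ n ∈ S, (w n : ℂ) * e (h * x n)‖ / h + W / (K * δ) := by
    have e1 : D / (2 * δ) = 1 / Real.pi * ∑ h ∈ Icc 2 K, ‖∑ n ∈ S, (w n : ℂ) * e (h * x n)‖ / h +
        1 / Real.pi ^ 2 * (W / (K * δ)) := by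
      rw [hD, mul_add, add_div]
      congr 1
      · rw [mul_sum, mul_sum, sum_div]
        refine sum_congr rfl fun h _ => ?_
        field_simp
      · field_simp
    rw [e1]
    have h1 : 1 / Real.pi ≤ 1 := by rw [div_le_one hpi0]; linarith
    have h2 : 1 / Real.pi ^ 2 ≤ 1 := by rw [div_le_one (by positivity)]; nlinarith
    have h3 : 0 ≤ ∑ h ∈ Icc 2 K, ‖∑ n ∈ S, (w n : ℂ) * e (h * x n)‖ / h :=
      sum_nonneg fun h _ => by positivity
    have h4 : 0 ≤ W / (K * δ) := by positivity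
    have h5 := mul_le_mul_of_nonneg_right h1 h3
    have h6 := mul_le_mul_of_nonneg_right h2 h4
    linarith
  have hup : ∑ n ∈ S, w n * (Int.fract (x n) - 1 / 2) ≤ D / (2 * δ) - SI + 2 * δ * W + δ / 2 * W := by
    have h2 : ∑ n ∈ S, w n * (Int.fract (x n) - 1 / 2) ≤
        ∑ n ∈ S, w n * ((P2 (Int.fract (x n)) - P2 (Int.fract (x n - δ))) / (2 * δ) + δ / 2) :=
      sum_le_sum fun n hn => mul_le_mul_of_nonneg_left (saw_upper (x n) δ hδ0 hδ1) (hw n hn)
    have h3 : ∑ n ∈ S, w n * ((P2 (Int.fract (x n)) - P2 (Int.fract (x n - δ))) / (2 * δ) + δ / 2) =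
        -(∑ n ∈ S, w n * (P2 (Int.fract (x n + -δ)) - P2 (Int.fract (x n)))) / (2 * δ) + δ / 2 * W := by
      rw [hW, mul_sum, ← sum_neg_distrib, sum_div, ← sum_add_distrib]
      refine sum_congr rfl fun n _ => ?_
      rw [sub_eq_add_neg (x n) δ]; ring
    rw [h3] at h2
    have h4 := (abs_le.1 hl).1
    have h5 := (abs_le.1 hfl).1
    have h6 : -(∑ n ∈ S, w n * (P2 (Int.fract (x n + -δ)) - P2 (Int.fract (x n)))) ≤
        D - 2 * δ * SI + 4 * δ ^ 2 * W := by linarith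
    have h7 : -(∑ n ∈ S, w n * (P2 (Int.fract (x n + -δ)) - P2 (Int.fract (x n)))) / (2 * δ) ≤
        (D - 2 * δ * SI + 4 * δ ^ 2 * W) / (2 * δ) := by gcongr
    have h8 : (D - 2 * δ * SI + 4 * δ ^ 2 * W) / (2 * δ) = D / (2 * δ) - SI + 2 * δ * W := by
      field_simp
      ring
    linarith
  have hlo : -(D / (2 * δ)) - SI - 2 * δ * W - δ / 2 * W ≤ ∑ n ∈ S, w n * (Int.fract (x n) - 1 / 2) := by
    have h2 : ∑ n ∈ S, w n * ((P2 (Int.fract (x n + δ)) - P2 (Int.fract (x n))) / (2 * δ) - δ / 2) ≤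
        ∑ n ∈ S, w n * (Int.fract (x n) - 1 / 2) :=
      sum_le_sum fun n hn => mul_le_mul_of_nonneg_left (saw_lower (x n) δ hδ0 hδ1) (hw n hn)
    have h3 : ∑ n ∈ S, w n * ((P2 (Int.fract (x n + δ)) - P2 (Int.fract (x n))) / (2 * δ) - δ / 2) =
        (∑ n ∈ S, w n * (P2 (Int.fract (x n + δ)) - P2 (Int.fract (x n)))) / (2 * δ) - δ / 2 * W := by
      rw [hW, mul_sum, sum_div, ← sum_sub_distrib]
      refine sum_congr rfl fun n _ => ?_
      ring
    rw [h3] at h2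
    have h4 := (abs_le.1 hu).1
    have h5 := (abs_le.1 hfu).1
    have h6 : -D - 2 * δ * SI - 4 * δ ^ 2 * W ≤
        ∑ n ∈ S, w n * (P2 (Int.fract (x n + δ)) - P2 (Int.fract (x n))) := by linarith
    have h7 : (-D - 2 * δ * SI - 4 * δ ^ 2 * W) / (2 * δ) ≤
        (∑ n ∈ S, w n * (P2 (Int.fract (x n + δ)) - P2 (Int.fract (x n)))) / (2 * δ) := by gcongr
    have h8 : (-D - 2 * δ * SI - 4 * δ ^ 2 * W) / (2 * δ) = -(D / (2 * δ)) - SI - 2 * δ * W := by
      field_simp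
      ring
    linarith
  rw [esum, abs_le]
  have h9 : 0 ≤ δ * W := by positivity
  constructor
  · linarith
  · linarith

end Pool.Agent.W5h31.LC
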