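import Pool.Agent.W5h31.LC.ES
import Pool.Agent.W5h31.LC.Saw

set_option autoImplicit false

/-!
The number of multiples of `q` in `(n, n + k]`, and its correlation over primes `q`.
-/

namespace Pool.Agent.W5h31.LC

open Finset Filter Topology
open Pool.Agent.H469R2.NK (e norm_e e_add conj_e)
open Pool.Agent.W565.MOFS (re_e)

/-- the number of the multiples of `q` in `(n, n + k]` -/
def mu (k n q : ℕ) : ℕ := (n + k) / q - n / q

/-- the sawtooth function -/
noncomputable def B (t : ℝ) : ℝ := Int.fract t - 1 / 2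

lemma floor_cast (a q : ℕ) (hq : 0 < q) : ((a / q : ℕ) : ℝ) = (a : ℝ) / q - Int.fract ((a : ℝ) / q) := by
  have h1 : Int.fract ((a : ℝ) / q) = ((a % q : ℕ) : ℝ) / q := Int.fract_div_natCast_eq_div_natCast_mod
  rw [h1]
  have hq0 : (q : ℝ) ≠ 0 := by positivity
  have h2 : (a : ℝ) = (q : ℝ) * ((a / q : ℕ) : ℝ) + ((a % q : ℕ) : ℝ) := by
    exact_mod_cast (Nat.div_add_mod a q).symm
  field_simp
  linarith

lemma mu_eq (k n q : ℕ) (hq : 0 < q) :
    (mu k n q : ℝ) = (k : ℝ) / q - B (((n : ℝ) + k) / q) + B ((n : ℝ) / q) := by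
  unfold mu B
  rw [Nat.cast_sub (Nat.div_le_div_right (by omega)), floor_cast _ _ hq, floor_cast _ _ hq]
  push_cast
  ring

lemma mu_le (k n q : ℕ) (hq : k < q) : mu k n q ≤ 1 := by
  unfold mu
  have h1 : (n + k) / q ≤ (n + q) / q := Nat.div_le_div_right (by omega)
  rw [Nat.add_div_right _ (by omega)] at h1
  omega

lemma mu_pos_iff (k n q : ℕ) (hq : 0 < q) : 0 < mu k n q ↔ ∃ i, n < i ∧ i ≤ n + k ∧ q ∣ i := by
  unfold mu
  constructor
  · intro h
    refine ⟨(n + k) / q * q, ?_, Nat.div_mul_le_self _ _, Dvd.intro_left _ rfl⟩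
    have h1 : n / q < (n + k) / q := by omega
    exact (Nat.div_lt_iff_lt_mul hq).1 h1
  · rintro ⟨i, h1, h2, c, rfl⟩
    have h3 : n / q < c := by
      rw [Nat.div_lt_iff_lt_mul hq, mul_comm]; exact h1
    have h4 : c ≤ (n + k) / q := by
      rw [Nat.le_div_iff_mul_le hq, mul_comm]; exact h2
    omega

lemma mu_congr (k n m q : ℕ) (hq : k < q)
    (h : (∃ i, n < i ∧ i ≤ n + k ∧ q ∣ i) ↔ (∃ i, m < i ∧ i ≤ m + k ∧ q ∣ i)) : mu k n q = mu k m q := by
  have h1 := mu_le k n q hq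
  have h2 := mu_le k m q hq
  have h3 := mu_pos_iff k n q (by omega)
  have h4 := mu_pos_iff k m q (by omega)
  by_cases h5 : 0 < mu k n q
  · have h6 : 0 < mu k m q := h4.2 (h.1 (h3.1 h5))
    omega
  · have h6 : ¬ 0 < mu k m q := fun h7 => h5 (h3.2 (h.2 (h4.1 h7)))
    omega

/-- the pointwise identity -/
lemma point (a b c : ℝ) :
    (1 + Real.cos a) * (Real.sin (a + b) - Real.sin (a - b) + Real.sin (a + c - b) -
      Real.sin (a + c + b)) =
    Real.sin b * (1 - Real.cos c) + (Real.sin (a + b) - Real.sin (a - b) - Real.sin (a + c + b) +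
      Real.sin (a + c - b) + 1 / 2 * (Real.sin (2 * a + b) - Real.sin (2 * a - b)) -
      1 / 2 * (Real.sin (2 * a + c + b) - Real.sin (2 * a + c - b))) := by
  have h1 : ∀ y : ℝ, Real.sin (y + b) - Real.sin (y - b) = 2 * Real.sin b * Real.cos y := by
    intro y
    rw [Real.sin_add, Real.sin_sub]; ring
  have h2 : Real.cos (2 * a) = 2 * Real.cos a ^ 2 - 1 := Real.cos_two_mul a
  have h3 : Real.cos (2 * a + c) = 2 * Real.cos a * Real.cos (a + c) - Real.cos c := by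
    have e1 : 2 * a + c = a + (a + c) := by ring
    have e2 : Real.cos c = Real.cos ((a + c) - a) := by congr 1; ring
    rw [e1, e2, Real.cos_add a (a + c), Real.cos_sub (a + c) a]; ring
  have e1 := h1 a
  have e2 := h1 (a + c)
  have e3 := h1 (2 * a)
  have e4 := h1 (2 * a + c)
  rw [h2] at e3
  rw [h3] at e4
  linear_combination (1 + Real.cos a) * e1 - (1 + Real.cos a) * e2 - e1 + e2 - 1 / 2 * e3 + 1 / 2 * e4

lemma abs_sin_sum (S : Finset ℕ) (ξ : ℝ) :
    |∑ q ∈ S, Real.sin (2 * Real.pi * (ξ / q))| ≤ ‖∑ q ∈ S, e (ξ / q)‖ := by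
  have h : ∑ q ∈ S, Real.sin (2 * Real.pi * (ξ / q)) = (∑ q ∈ S, e (ξ / q)).im := by
    rw [Complex.im_sum]
    refine sum_congr rfl fun q _ => ?_
    unfold e
    exact (Complex.exp_ofReal_mul_I_im _).symm
  rw [h]
  exact Complex.abs_im_le_norm _

lemma e_cos (y : ℝ) : ((Real.cos (2 * Real.pi * y) : ℝ) : ℂ) = (e y + e (-y)) / 2 := by
  rw [← conj_e, Complex.add_conj, re_e]
  push_cast
  ring

/-- the weighted sums for `h ≥ 2` -/
lemma w_sum (S : Finset ℕ) (τ E L U : ℝ)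
    (hE : ∀ ξ : ℝ, L ≤ ξ → ξ ≤ U → ‖∑ q ∈ S, e (ξ / q)‖ ≤ E) (ξ : ℝ) (h1 : L ≤ ξ - τ) (hτ : 0 ≤ τ)
    (h2 : ξ + τ ≤ U) :
    ‖∑ q ∈ S, ((1 + Real.cos (2 * Real.pi * (τ / q)) : ℝ) : ℂ) * e (ξ / q)‖ ≤ 2 * E := by
  have e1 : ∑ q ∈ S, ((1 + Real.cos (2 * Real.pi * (τ / q)) : ℝ) : ℂ) * e (ξ / q) =
      ∑ q ∈ S, e (ξ / q) + (∑ q ∈ S, e ((ξ + τ) / q)) / 2 + (∑ q ∈ S, e ((ξ - τ) / q)) / 2 := by
    rw [sum_div, sum_div, ← sum_add_distrib, ← sum_add_distrib]
    refine sum_congr rfl fun q _ => ?_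
    rw [add_div, sub_div, e_add, sub_eq_add_neg, e_add, Complex.ofReal_add, e_cos]
    push_cast
    ring
  rw [e1]
  have a1 := hE ξ (by linarith) (by linarith)
  have a2 := hE (ξ + τ) (by linarith) h2
  have a3 := hE (ξ - τ) h1 (by linarith)
  refine (norm_add_le _ _).trans ?_
  refine (add_le_add (norm_add_le _ _) le_rfl).trans ?_
  rw [norm_div, norm_div]
  have : ‖(2 : ℂ)‖ = 2 := by norm_num
  rw [this]
  linarith

/-- the correlation inequality -/
theorem core (k n m K : ℕ) (S : Finset ℕ) (hS : ∀ q ∈ S, 0 < q) (δ E L U : ℝ) (hδ0 : 0 < δ)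
    (hδ1 : δ ≤ 1) (hK : 1 ≤ K) (hE0 : 0 ≤ E)
    (hE : ∀ ξ : ℝ, L ≤ ξ → ξ ≤ U → ‖∑ q ∈ S, e (ξ / q)‖ ≤ E)
    (hL : L + k ≤ n) (hnm : n ≤ m) (hU : ((K : ℝ) + 3) * (m + k) ≤ U) :
    1 / Real.pi * ∑ q ∈ S, Real.sin (Real.pi * k / q) *
        (1 - Real.cos (2 * Real.pi * (((m : ℝ) - n) / q))) ≤
      ∑ q ∈ S, (1 + Real.cos (2 * Real.pi * (((n : ℝ) + k / 2) / q))) * ((mu k n q : ℝ) - mu k m q) +
        4 * (2 * E * K + 2 * S.card / (K * δ) + 6 * δ * S.card) + 2 * E := by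
  set τ : ℝ := (n : ℝ) + k / 2 with hτ
  have hτ0 : 0 ≤ τ := by positivity
  have hnm' : (n : ℝ) ≤ m := by exact_mod_cast hnm
  have hk0 : (0 : ℝ) ≤ k := by positivity
  have hn0 : (0 : ℝ) ≤ n := by positivity
  have hK1 : (1 : ℝ) ≤ K := by exact_mod_cast hK
  have hpi0 : 0 < Real.pi := Real.pi_pos
  have hpi : 3 < Real.pi := Real.pi_gt_three
  set w : ℕ → ℝ := fun q => 1 + Real.cos (2 * Real.pi * (τ / q)) with hw
  have hw0 : ∀ q, 0 ≤ w q := by
    intro q
    have := Real.neg_one_le_cos (2 * Real.pi * (τ / q))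
    simp only [hw]; linarith
  have hw2 : ∀ q, w q ≤ 2 := by
    intro q
    have := Real.cos_le_one (2 * Real.pi * (τ / q))
    simp only [hw]; linarith
  have hW : ∑ q ∈ S, w q ≤ 2 * S.card := by
    calc ∑ q ∈ S, w q ≤ ∑ _q ∈ S, (2 : ℝ) := sum_le_sum fun q _ => hw2 q
      _ = 2 * S.card := by rw [sum_const, nsmul_eq_mul]; ring
  have hW0 : 0 ≤ ∑ q ∈ S, w q := sum_nonneg fun q _ => hw0 q
  -- the error terms
  set G : ℝ → ℝ := fun x => ∑ q ∈ S, w q * (Int.fract (x / q) - 1 / 2 +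
    Real.sin (2 * Real.pi * (x / q)) / Real.pi) with hG
  set Er : ℝ := 2 * E * K + 2 * S.card / (K * δ) + 6 * δ * S.card with hEr
  have hGb : ∀ x : ℝ, (n : ℝ) ≤ x → x ≤ (m : ℝ) + k → |G x| ≤ Er := by
    intro x hx1 hx2
    have h1 := saw_w S w (fun q => x / q) (fun q _ => hw0 q) δ hδ0 hδ1 K hK
    refine h1.trans ?_
    have h2 : ∑ h ∈ Icc 2 K, ‖∑ q ∈ S, (w q : ℂ) * e (h * (x / q))‖ / h ≤ 2 * E * K := by
      have h3 : ∀ h ∈ Icc 2 K, ‖∑ q ∈ S, (w q : ℂ) * e (h * (x / q))‖ / h ≤ 2 * E := by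
        intro h hh
        rw [mem_Icc] at hh
        have hh2 : (2 : ℝ) ≤ h := by exact_mod_cast hh.1
        have hhK : (h : ℝ) ≤ K := by exact_mod_cast hh.2
        have h4 := w_sum S τ E L U hE (h * x) (by nlinarith) hτ0 (by
          have : (h : ℝ) * x ≤ K * (m + k) := by
            apply mul_le_mul hhK hx2 (by linarith) (by linarith)
          nlinarith)
        have e1 : ∑ q ∈ S, (w q : ℂ) * e (h * (x / q)) = ∑ q ∈ S, (w q : ℂ) * e ((h * x) / q) :=
          sum_congr rfl fun q _ => by rw [mul_div_assoc]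
        rw [e1, div_le_iff₀ (by linarith)]
        refine h4.trans ?_
        nlinarith
      refine (sum_le_sum h3).trans ?_
      rw [sum_const, nsmul_eq_mul, Nat.card_Icc]
      have : ((K + 1 - 2 : ℕ) : ℝ) ≤ K := by exact_mod_cast (by omega : K + 1 - 2 ≤ K)
      nlinarith
    have h5 : (∑ q ∈ S, w q) / (K * δ) ≤ 2 * S.card / (K * δ) := by gcongr
    have h6 : 3 * δ * ∑ q ∈ S, w q ≤ 6 * δ * S.card := by nlinarith
    rw [hEr]
    linarith
  -- the main identity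
  have hmain : ∑ q ∈ S, w q * ((mu k n q : ℝ) - mu k m q) =
      G n - G ((n : ℝ) + k) - G m + G ((m : ℝ) + k) +
      1 / Real.pi * ∑ q ∈ S, Real.sin (Real.pi * k / q) *
        (1 - Real.cos (2 * Real.pi * (((m : ℝ) - n) / q))) +
      1 / Real.pi * (∑ q ∈ S, Real.sin (2 * Real.pi * (((n : ℝ) + k) / q)) -
        ∑ q ∈ S, Real.sin (2 * Real.pi * ((n : ℝ) / q)) -
        ∑ q ∈ S, Real.sin (2 * Real.pi * (((m : ℝ) + k) / q)) +
        ∑ q ∈ S, Real.sin (2 * Real.pi * ((m : ℝ) / q)) +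
        1 / 2 * (∑ q ∈ S, Real.sin (2 * Real.pi * ((2 * n + 3 * k / 2) / q)) -
          ∑ q ∈ S, Real.sin (2 * Real.pi * ((2 * n + k / 2) / q))) -
        1 / 2 * (∑ q ∈ S, Real.sin (2 * Real.pi * ((n + m + 3 * k / 2) / q)) -
          ∑ q ∈ S, Real.sin (2 * Real.pi * ((n + m + k / 2) / q)))) := by
    simp only [hG, mul_sum, ← sum_sub_distrib, ← sum_add_distrib]
    refine sum_congr rfl fun q hq => ?_
    have hq0 := hS q hq
    have hq1 : (q : ℝ) ≠ 0 := by positivity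
    rw [mu_eq k n q hq0, mu_eq k m q hq0]
    unfold B
    have hp := point (2 * Real.pi * (τ / q)) (Real.pi * k / q) (2 * Real.pi * (((m : ℝ) - n) / q))
    have x1 : 2 * Real.pi * (τ / q) + Real.pi * k / q = 2 * Real.pi * (((n : ℝ) + k) / q) := by
      rw [hτ]; field_simp; ring
    have x2 : 2 * Real.pi * (τ / q) - Real.pi * k / q = 2 * Real.pi * ((n : ℝ) / q) := by
      rw [hτ]; field_simp; ring
    have x3 : 2 * Real.pi * (τ / q) + 2 * Real.pi * (((m : ℝ) - n) / q) - Real.pi * k / q =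
        2 * Real.pi * ((m : ℝ) / q) := by
      rw [hτ]; field_simp; ring
    have x4 : 2 * Real.pi * (τ / q) + 2 * Real.pi * (((m : ℝ) - n) / q) + Real.pi * k / q =
        2 * Real.pi * (((m : ℝ) + k) / q) := by
      rw [hτ]; field_simp; ring
    have x5 : 2 * (2 * Real.pi * (τ / q)) + Real.pi * k / q =
        2 * Real.pi * ((2 * n + 3 * k / 2) / q) := by
      rw [hτ]; field_simp; ring
    have x6 : 2 * (2 * Real.pi * (τ / q)) - Real.pi * k / q =
        2 * Real.pi * ((2 * n + k / 2) / q) := by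
      rw [hτ]; field_simp; ring
    have x7 : 2 * (2 * Real.pi * (τ / q)) + 2 * Real.pi * (((m : ℝ) - n) / q) + Real.pi * k / q =
        2 * Real.pi * ((n + m + 3 * k / 2) / q) := by
      rw [hτ]; field_simp; ring
    have x8 : 2 * (2 * Real.pi * (τ / q)) + 2 * Real.pi * (((m : ℝ) - n) / q) - Real.pi * k / q =
        2 * Real.pi * ((n + m + k / 2) / q) := by
      rw [hτ]; field_simp; ring
    rw [x1, x2, x3, x4, x5, x6, x7, x8] at hp
    simp only [hw]
    linear_combination (1 / Real.pi) * hp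
  have g1 := abs_le.1 (hGb n le_rfl (by linarith))
  have g2 := abs_le.1 (hGb ((n : ℝ) + k) (by linarith) (by linarith))
  have g3 := abs_le.1 (hGb m hnm' (by linarith))
  have g4 := abs_le.1 (hGb ((m : ℝ) + k) (by linarith) le_rfl)
  have hs : ∀ ξ : ℝ, (n : ℝ) ≤ ξ → ξ ≤ 2 * (m + k) →
      |∑ q ∈ S, Real.sin (2 * Real.pi * (ξ / q))| ≤ E := by
    intro ξ h1 h2
    exact (abs_sin_sum S ξ).trans (hE ξ (by linarith) (by nlinarith))
  have s1 := abs_le.1 (hs ((n : ℝ) + k) (by linarith) (by linarith))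
  have s2 := abs_le.1 (hs (n : ℝ) (by linarith) (by linarith))
  have s3 := abs_le.1 (hs ((m : ℝ) + k) (by linarith) (by linarith))
  have s4 := abs_le.1 (hs (m : ℝ) (by linarith) (by linarith))
  have s5 := abs_le.1 (hs (2 * n + 3 * k / 2) (by linarith) (by linarith))
  have s6 := abs_le.1 (hs (2 * n + k / 2) (by linarith) (by linarith))
  have s7 := abs_le.1 (hs (n + m + 3 * k / 2) (by linarith) (by linarith))
  have s8 := abs_le.1 (hs (n + m + k / 2) (by linarith) (by linarith))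
  set Z : ℝ := (∑ q ∈ S, Real.sin (2 * Real.pi * (((n : ℝ) + k) / q)) -
        ∑ q ∈ S, Real.sin (2 * Real.pi * ((n : ℝ) / q)) -
        ∑ q ∈ S, Real.sin (2 * Real.pi * (((m : ℝ) + k) / q)) +
        ∑ q ∈ S, Real.sin (2 * Real.pi * ((m : ℝ) / q)) +
        1 / 2 * (∑ q ∈ S, Real.sin (2 * Real.pi * ((2 * n + 3 * k / 2) / q)) -
          ∑ q ∈ S, Real.sin (2 * Real.pi * ((2 * n + k / 2) / q))) -
        1 / 2 * (∑ q ∈ S, Real.sin (2 * Real.pi * ((n + m + 3 * k / 2) / q)) -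
          ∑ q ∈ S, Real.sin (2 * Real.pi * ((n + m + k / 2) / q)))) with hZ
  have hZ1 : -(6 * E) ≤ Z := by rw [hZ]; linarith
  have hZ2 : -(2 * E) ≤ 1 / Real.pi * Z := by
    have h1 : 1 / Real.pi ≤ 1 / 3 := one_div_le_one_div_of_le (by norm_num) hpi.le
    have h2 : 0 < 1 / Real.pi := by positivity
    nlinarith
  rw [hmain]
  linarith

end Pool.Agent.W5h31.LC
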