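import Pool.Agent.W5h31.LC.Core
import Pool.Agent.H295R3.Hoheisel

set_option autoImplicit false

/-!
Unweighted counts, and the asymptotic inequalities.
-/

namespace Pool.Agent.W5h31.LC

open Finset Filter Topology
open Pool.Agent.H469R2.NK (e norm_e e_add conj_e)

/-- the number of the pairs `q ∈ S`, multiple of `q` in `(m, m + k]` -/
theorem count_mu (k m K : ℕ) (S : Finset ℕ) (hS : ∀ q ∈ S, 0 < q) (δ E L U : ℝ) (hδ0 : 0 < δ)
    (hδ1 : δ ≤ 1) (hK : 1 ≤ K) (hE0 : 0 ≤ E)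
    (hE : ∀ ξ : ℝ, L ≤ ξ → ξ ≤ U → ‖∑ q ∈ S, e (ξ / q)‖ ≤ E)
    (hL : L ≤ m) (hU : (K : ℝ) * (m + k) ≤ U) :
    |∑ q ∈ S, (mu k m q : ℝ) - ∑ q ∈ S, (k : ℝ) / q| ≤
      2 * (E * K + E + S.card / (K * δ) + 3 * δ * S.card) := by
  have hk0 : (0 : ℝ) ≤ k := by positivity
  have hm0 : (0 : ℝ) ≤ m := by positivity
  have hK1 : (1 : ℝ) ≤ K := by exact_mod_cast hK
  have hpi : 3 < Real.pi := Real.pi_gt_three
  have hpi0 : 0 < Real.pi := Real.pi_pos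
  have key : ∀ x : ℝ, (m : ℝ) ≤ x → x ≤ (m : ℝ) + k → |∑ q ∈ S, B (x / q)| ≤
      E * K + E + S.card / (K * δ) + 3 * δ * S.card := by
    intro x hx1 hx2
    have h1 := saw_w S (fun _ => 1) (fun q => x / q) (fun _ _ => zero_le_one) δ hδ0 hδ1 K hK
    simp only [one_mul, sum_const, nsmul_eq_mul, mul_one, Complex.ofReal_one] at h1
    have h2 : ∑ h ∈ Icc 2 K, ‖∑ q ∈ S, e (h * (x / q))‖ / h ≤ E * K := by
      have h3 : ∀ h ∈ Icc 2 K, ‖∑ q ∈ S, e (h * (x / q))‖ / h ≤ E := by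
        intro h hh
        rw [mem_Icc] at hh
        have hh2 : (2 : ℝ) ≤ h := by exact_mod_cast hh.1
        have hhK : (h : ℝ) ≤ K := by exact_mod_cast hh.2
        have h4 := hE (h * x) (by nlinarith) (by
          have : (h : ℝ) * x ≤ K * (m + k) := by
            apply mul_le_mul hhK hx2 (by linarith) (by linarith)
          linarith)
        have e1 : ∑ q ∈ S, e (h * (x / q)) = ∑ q ∈ S, e ((h * x) / q) :=
          sum_congr rfl fun q _ => by rw [mul_div_assoc]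
        rw [e1, div_le_iff₀ (by linarith)]
        nlinarith
      refine (sum_le_sum h3).trans ?_
      rw [sum_const, nsmul_eq_mul, Nat.card_Icc]
      have : ((K + 1 - 2 : ℕ) : ℝ) ≤ K := by exact_mod_cast (by omega : K + 1 - 2 ≤ K)
      nlinarith
    have e2 : ∑ q ∈ S, (Int.fract (x / q) - 1 / 2 + Real.sin (2 * Real.pi * (x / q)) / Real.pi) =
        ∑ q ∈ S, B (x / q) + (∑ q ∈ S, Real.sin (2 * Real.pi * (x / q))) / Real.pi := by
      rw [sum_div, ← sum_add_distrib]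
      rfl
    rw [e2] at h1
    have h5 : |∑ q ∈ S, Real.sin (2 * Real.pi * (x / q))| ≤ E :=
      (abs_sin_sum S x).trans (hE x (by linarith) (by nlinarith))
    have h6 : |(∑ q ∈ S, Real.sin (2 * Real.pi * (x / q))) / Real.pi| ≤ E := by
      rw [abs_div, abs_of_pos hpi0, div_le_iff₀ hpi0]
      nlinarith
    have h7 := abs_le.1 h1
    have h8 := abs_le.1 h6
    rw [abs_le]
    constructor
    · linarith [h7.1, h8.2]
    · linarith [h7.2, h8.1]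
  have e1 : ∑ q ∈ S, (mu k m q : ℝ) - ∑ q ∈ S, (k : ℝ) / q =
      ∑ q ∈ S, B ((m : ℝ) / q) - ∑ q ∈ S, B (((m : ℝ) + k) / q) := by
    rw [← sum_sub_distrib, ← sum_sub_distrib]
    refine sum_congr rfl fun q hq => ?_
    rw [mu_eq k m q (hS q hq)]
    ring
  rw [e1]
  have g1 := abs_le.1 (key m le_rfl (by linarith))
  have g2 := abs_le.1 (key ((m : ℝ) + k) (by linarith) le_rfl)
  rw [abs_le]
  constructor
  · linarith [g1.1, g2.2]
  · linarith [g1.2, g2.1]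

/-- comparison of powers with a logarithm -/
lemma evl (a b c : ℝ) (hab : a < b) : ∀ᶠ k : ℕ in atTop, c * (k : ℝ) ^ a * Real.log k ≤ (k : ℝ) ^ b := by
  have hl : Tendsto (fun N : ℕ => (N : ℝ)) atTop atTop := tendsto_natCast_atTop_atTop
  have h1 := (isLittleO_log_rpow_atTop (show (0 : ℝ) < b - a by linarith)).def
    (show (0 : ℝ) < 1 / (|c| + 1) by positivity)
  filter_upwards [hl.eventually h1, eventually_ge_atTop 1] with k h2 h3
  have hk1 : (1 : ℝ) ≤ k := by exact_mod_cast h3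
  have hk0 : (0 : ℝ) < k := by linarith
  have hlog := Real.log_nonneg hk1
  rw [Real.norm_of_nonneg hlog, Real.norm_of_nonneg (by positivity)] at h2
  calc c * (k : ℝ) ^ a * Real.log k ≤ (|c| + 1) * (k : ℝ) ^ a * Real.log k := by
        have : c ≤ |c| + 1 := by linarith [le_abs_self c]
        gcongr
    _ ≤ (|c| + 1) * (k : ℝ) ^ a * (1 / (|c| + 1) * (k : ℝ) ^ (b - a)) := by gcongr
    _ = (k : ℝ) ^ a * (k : ℝ) ^ (b - a) := by field_simp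
    _ = (k : ℝ) ^ b := by rw [← Real.rpow_add hk0]; congr 1; ring

/-- comparison of powers -/
lemma evp (a b c : ℝ) (hab : a < b) : ∀ᶠ k : ℕ in atTop, c * (k : ℝ) ^ a ≤ (k : ℝ) ^ b := by
  filter_upwards [evl a b |c| hab, eventually_ge_atTop 3] with k h1 h2
  have hk3 : (3 : ℝ) ≤ k := by exact_mod_cast h2
  have h3 : 1 ≤ Real.log k := by
    rw [Real.le_log_iff_exp_le (by linarith)]
    have := Real.exp_one_lt_d9
    linarith
  have h4 : 0 ≤ (k : ℝ) ^ a := by positivity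
  have h5 : c * (k : ℝ) ^ a ≤ |c| * (k : ℝ) ^ a := mul_le_mul_of_nonneg_right (le_abs_self c) h4
  have h6 : 0 ≤ |c| * (k : ℝ) ^ a := by positivity
  nlinarith

/-- uniform exponential sum bound near `k` -/
theorem exp_k (d : ℕ) (δ : ℝ) (hδ : 0 < δ) : ∃ ρ : ℝ, 0 < ρ ∧ ρ ≤ 1 / 8 ∧ ∀ᶠ k : ℕ in atTop,
    ∀ N N' : ℕ, k ≤ N → N ≤ 4 * k → N' ≤ 2 * N → ∀ ξ : ℝ, (k : ℝ) ^ (1 + δ) ≤ ξ → ξ ≤ (k : ℝ) ^ d →
    ‖∑ q ∈ (Ioc N N').filter Nat.Prime, e (ξ / (q : ℝ))‖ ≤ (k : ℝ) ^ (1 - ρ) := by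
  obtain ⟨ρ, hρ0, hρ1, N₀, h⟩ := prime_sum d (δ / 2) (by positivity)
  refine ⟨ρ / 2, by positivity, by linarith, ?_⟩
  filter_upwards [evp (1 + δ / 2) (1 + δ) (4 ^ (1 + δ / 2)) (by linarith),
    evp (1 - ρ) (1 - ρ / 2) (4 ^ (1 - ρ)) (by linarith), eventually_ge_atTop (N₀ + 1)] with k h1 h2 h3
  intro N N' hN1 hN2 hN' ξ hξ1 hξ2
  have hk1 : (1 : ℝ) ≤ k := by exact_mod_cast (by omega : 1 ≤ k)
  have hNk : (k : ℝ) ≤ N := by exact_mod_cast hN1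
  have hN4 : (N : ℝ) ≤ 4 * k := by exact_mod_cast hN2
  have hN0 : (0 : ℝ) < N := by linarith
  have h4 : (N : ℝ) ^ (1 + δ / 2) ≤ ξ := by
    calc (N : ℝ) ^ (1 + δ / 2) ≤ (4 * k : ℝ) ^ (1 + δ / 2) := by gcongr
      _ = 4 ^ (1 + δ / 2) * (k : ℝ) ^ (1 + δ / 2) := Real.mul_rpow (by norm_num) (by linarith)
      _ ≤ _ := h1
      _ ≤ _ := hξ1
  have h5 : ξ ≤ (N : ℝ) ^ d := hξ2.trans (by gcongr)
  refine (h N N' (by omega) hN' ξ h4 h5).trans ?_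
  calc (N : ℝ) ^ (1 - ρ) ≤ (4 * k : ℝ) ^ (1 - ρ) := by
        apply Real.rpow_le_rpow hN0.le hN4; linarith
    _ = 4 ^ (1 - ρ) * (k : ℝ) ^ (1 - ρ) := Real.mul_rpow (by norm_num) (by linarith)
    _ ≤ _ := h2

/-- Hoheisel's theorem near `k`: many primes in `(N, N + Y]` -/
theorem hoh : ∃ δ η : ℝ, 0 < δ ∧ δ < 1 ∧ 0 < η ∧ ∃ X₀ : ℕ, 2 ≤ X₀ ∧
    ∀ X Y : ℕ, X₀ ≤ X → (X : ℝ) ^ (1 - δ) ≤ Y → Y ≤ X →
      η * Y / Real.log X ≤ (((Ioc X (X + Y)).filter Nat.Prime).card : ℝ) :=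
  Pool.Agent.H295R3.D.hoheisel

end Pool.Agent.W5h31.LC
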