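import Pool.Agent.TH915.PW.PrimeSum
import Pool.Agent.H895R3.NK.E4

set_option autoImplicit false

/-!
Sums of `e (ξ / q)` over the primes of an interval, with a power saving.
(`quot_sum` is the lemma of `Pool.Agent.Y565.RG.QuotP`, copied here to keep the imports small.)
-/

namespace Pool.Agent.W5h31.LC

open Finset Filter
open Pool.Agent.H469R2.NK (e norm_e e_add)
open Pool.Agent.TH915.PW (prime_bound abel_bound)
open Pool.Agent.H895R3.NK (prime_exp_bound ev_log')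

/-- power saving for the phase `ξ / n` over the primes -/
lemma quot_sum (d : ℕ) (δ : ℝ) (hδ : 0 < δ) : ∃ ρ : ℝ, 0 < ρ ∧ ρ ≤ 1 / 8 ∧ ∃ N₀ : ℕ, ∀ N N' : ℕ,
    N₀ ≤ N → N ≤ N' → N' ≤ 2 * N → ∀ ξ : ℝ, (N : ℝ) ^ (1 + δ) ≤ ξ → ξ ≤ (N : ℝ) ^ d →
    ‖∑ n ∈ Ioc N N', ((ArithmeticFunction.vonMangoldt n : ℝ) : ℂ) * e (ξ / (n : ℝ))‖ ≤
      (N : ℝ) ^ (1 - ρ) := by
  obtain ⟨η, hη0, hη1, C, hC, h⟩ := prime_exp_bound d
  set δ' : ℝ := min δ (η / 4) with hδ'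
  have hδ'0 : 0 < δ' := lt_min hδ (by positivity)
  have hδ'δ : δ' ≤ δ := min_le_left _ _
  have hδ'η : δ' ≤ η / 4 := min_le_right _ _
  set B : ℝ := (8 * √(2 * C) + 6 * C) * 729 with hB
  obtain ⟨N₁, hN₁⟩ := ev_log' (δ' / 8) (by positivity) 7 B
  refine ⟨δ' / 4, by positivity, by linarith, N₁ + 10 ^ 4, fun N N' hN hNN' hN' ξ hξ1 hξ2 => ?_⟩
  obtain ⟨h12, hBl, hl1, hLg, hpow⟩ := hN₁ N (by omega)
  have hNr : (12 : ℝ) ≤ N := by exact_mod_cast h12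
  have hN0 : (0 : ℝ) < N := by linarith
  have hN1 : (1 : ℝ) ≤ N := by linarith
  have hξ0 : 0 < ξ := lt_of_lt_of_le (by positivity) hξ1
  refine (h N N' (by omega) hNN' hN' ξ hξ0 hξ2).trans ?_
  set Lg : ℝ := 1 + Real.log (4 * N) with hLgdef
  have hLg1 : 1 ≤ Lg := by
    have : 0 ≤ Real.log (4 * N) := Real.log_nonneg (by linarith)
    linarith
  set P : ℝ := (N : ℝ) ^ (-δ') with hP
  have hP0 : 0 < P := by positivity
  have hP1 : (N : ℝ) ^ (-(η / 4)) ≤ P := Real.rpow_le_rpow_of_exponent_le hN1 (by linarith)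
  have hinv : 1 / ξ ≤ P / N := by
    have h1 : (N : ℝ) ^ (1 + δ') ≤ ξ :=
      (Real.rpow_le_rpow_of_exponent_le hN1 (by linarith)).trans hξ1
    have h2 : P / N = 1 / (N : ℝ) ^ (1 + δ') := by
      rw [hP, Real.rpow_add hN0, Real.rpow_one, Real.rpow_neg hN0.le]
      field_simp
    rw [h2]
    exact one_div_le_one_div_of_le (by positivity) h1
  have hA : (N : ℝ) ^ 3 * Lg / ξ ≤ (N : ℝ) ^ 2 * P * Lg := by
    calc (N : ℝ) ^ 3 * Lg / ξ = (N : ℝ) ^ 3 * Lg * (1 / ξ) := by ring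
      _ ≤ (N : ℝ) ^ 3 * Lg * (P / N) := by gcongr
      _ = _ := by field_simp
  have hA2 : (N : ℝ) ^ 2 / ξ ≤ N * P := by
    calc (N : ℝ) ^ 2 / ξ = (N : ℝ) ^ 2 * (1 / ξ) := by ring
      _ ≤ (N : ℝ) ^ 2 * (P / N) := by gcongr
      _ = _ := by field_simp
  set R : ℝ := (N : ℝ) ^ (1 - δ' / 2) with hR
  have hR0 : 0 < R := by positivity
  have hR2 : R ^ 2 = (N : ℝ) ^ 2 * P := by
    rw [hR, hP, ← Real.rpow_natCast, ← Real.rpow_natCast, ← Real.rpow_mul hN0.le,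
      ← Real.rpow_add hN0]
    congr 1
    push_cast
    ring
  have hNP : N * P ≤ R := by
    rw [hR, hP]
    nth_rewrite 1 [← Real.rpow_one (N : ℝ)]
    rw [← Real.rpow_add hN0]
    exact Real.rpow_le_rpow_of_exponent_le hN1 (by linarith)
  have hsq : Real.sqrt (C * ((N : ℝ) ^ 2 * ((N : ℝ) ^ (-(η / 4))) + (N : ℝ) ^ 3 * Lg / ξ)) ≤
      √(2 * C) * Lg * R := by
    rw [Real.sqrt_le_left (by positivity)]
    have h1 : (√(2 * C) * Lg * R) ^ 2 = 2 * C * (Lg ^ 2 * ((N : ℝ) ^ 2 * P)) := by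
      rw [mul_pow, mul_pow, Real.sq_sqrt (by positivity), hR2]
      ring
    rw [h1]
    have h2 : (N : ℝ) ^ 2 * ((N : ℝ) ^ (-(η / 4))) ≤ (N : ℝ) ^ 2 * P := by gcongr
    have h3 : (N : ℝ) ^ 2 * P ≤ Lg ^ 2 * ((N : ℝ) ^ 2 * P) :=
      le_mul_of_one_le_left (by positivity) (by nlinarith)
    have h4 : (N : ℝ) ^ 2 * P * Lg ≤ Lg ^ 2 * ((N : ℝ) ^ 2 * P) := by
      have : 0 < (N : ℝ) ^ 2 * P := by positivity
      nlinarith
    have h5 : (N : ℝ) ^ 2 * ((N : ℝ) ^ (-(η / 4))) + (N : ℝ) ^ 3 * Lg / ξ ≤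
        2 * (Lg ^ 2 * ((N : ℝ) ^ 2 * P)) := by linarith
    calc _ ≤ C * (2 * (Lg ^ 2 * ((N : ℝ) ^ 2 * P))) := by gcongr
      _ = _ := by ring
  have hLg6 : Lg ^ 2 ≤ Lg ^ 6 := pow_le_pow_right₀ hLg1 (by norm_num)
  have hfin : 8 * Lg ^ 5 * (√(2 * C) * Lg * R) + 3 * Lg * (C * (R + R) * Lg) ≤
      (8 * √(2 * C) + 6 * C) * Lg ^ 6 * R := by
    have h1 : C * Lg ^ 2 * R ≤ C * Lg ^ 6 * R := by gcongr
    nlinarith
  have hl0 : 0 ≤ Real.log (N : ℝ) := by linarith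
  calc 8 * Lg ^ 5 * Real.sqrt (C * ((N : ℝ) ^ 2 * ((N : ℝ) ^ (-(η / 4))) +
          (N : ℝ) ^ 3 * Lg / ξ)) +
        3 * Lg * (C * ((N : ℝ) ^ 2 / ξ + (N : ℝ) * (N : ℝ) ^ (-(η / 4))) * Lg)
      ≤ 8 * Lg ^ 5 * (√(2 * C) * Lg * R) + 3 * Lg * (C * (R + R) * Lg) := by
        have h1 : (N : ℝ) ^ 2 / ξ ≤ R := hA2.trans hNP
        have h2 : (N : ℝ) * (N : ℝ) ^ (-(η / 4)) ≤ R :=
          le_trans (by gcongr) hNP
        gcongr
    _ ≤ (8 * √(2 * C) + 6 * C) * Lg ^ 6 * R := hfin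
    _ ≤ (8 * √(2 * C) + 6 * C) * (3 * Real.log N) ^ 6 * R := by gcongr
    _ = B * Real.log N ^ 6 * R := by rw [hB]; ring
    _ ≤ Real.log N * Real.log N ^ 6 * R := by gcongr
    _ = Real.log N ^ 7 * R := by ring
    _ ≤ (N : ℝ) ^ (δ' / 8) * R := by gcongr
    _ = (N : ℝ) ^ (δ' / 8 + (1 - δ' / 2)) := by rw [hR, ← Real.rpow_add hN0]
    _ ≤ _ := Real.rpow_le_rpow_of_exponent_le hN1 (by linarith)

/-- power saving for the sums of `e (ξ / q)` over primes -/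
theorem prime_sum (d : ℕ) (δ : ℝ) (hδ : 0 < δ) : ∃ ρ : ℝ, 0 < ρ ∧ ρ ≤ 1 / 8 ∧ ∃ N₀ : ℕ, ∀ N N' : ℕ,
    N₀ ≤ N → N' ≤ 2 * N → ∀ ξ : ℝ, (N : ℝ) ^ (1 + δ) ≤ ξ → ξ ≤ (N : ℝ) ^ d →
    ‖∑ q ∈ (Ioc N N').filter Nat.Prime, e (ξ / (q : ℝ))‖ ≤ (N : ℝ) ^ (1 - ρ) := by
  obtain ⟨ρ, hρ0, hρ1, N₀, h⟩ := quot_sum d δ hδ
  -- `2 √(2N) log (2N) ≤ N^(1-ρ)`, `2 N^(1-ρ) ≤ N^(1-ρ/2)`
  have ev : ∀ᶠ N : ℕ in atTop, 2 * √((2 * N : ℕ) : ℝ) * Real.log ((2 * N : ℕ) : ℝ) ≤ (N : ℝ) ^ (1 - ρ) ∧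
      2 * (N : ℝ) ^ (1 - ρ) ≤ (N : ℝ) ^ (1 - ρ / 2) := by
    have hl : Tendsto (fun N : ℕ => (N : ℝ)) atTop atTop := tendsto_natCast_atTop_atTop
    have h1 := (isLittleO_log_rpow_atTop (show (0 : ℝ) < 1 / 8 by norm_num)).def
      (show (0 : ℝ) < 1 / 8 by norm_num)
    have h2 : Tendsto (fun N : ℕ => ((2 * N : ℕ) : ℝ)) atTop atTop :=
      hl.comp (tendsto_id.const_mul_atTop' (by norm_num))
    have h3 := h2.eventually h1
    have h4 := (tendsto_rpow_atTop (show 0 < ρ / 2 by positivity)).comp hl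
    filter_upwards [h3, h4.eventually_ge_atTop 2, eventually_ge_atTop 4] with N h5 h6 h7
    have hN4 : (4 : ℝ) ≤ N := by exact_mod_cast h7
    have hN0 : (0 : ℝ) < N := by linarith
    constructor
    · rw [Real.norm_eq_abs, Real.norm_eq_abs, abs_of_nonneg (Real.log_nonneg (by push_cast; linarith)),
        abs_of_nonneg (by positivity)] at h5
      have e1 : √((2 * N : ℕ) : ℝ) = ((2 * N : ℕ) : ℝ) ^ (1 / 2 : ℝ) := Real.sqrt_eq_rpow _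
      rw [e1]
      have hpos : (0 : ℝ) < ((2 * N : ℕ) : ℝ) := by push_cast; linarith
      calc 2 * ((2 * N : ℕ) : ℝ) ^ (1 / 2 : ℝ) * Real.log ((2 * N : ℕ) : ℝ)
          ≤ 2 * ((2 * N : ℕ) : ℝ) ^ (1 / 2 : ℝ) * (1 / 8 * ((2 * N : ℕ) : ℝ) ^ (1 / 8 : ℝ)) := by gcongr
        _ = 1 / 4 * ((2 * N : ℕ) : ℝ) ^ (5 / 8 : ℝ) := by
            rw [show (5 / 8 : ℝ) = 1 / 2 + 1 / 8 by norm_num, Real.rpow_add hpos]
            ring
        _ = 1 / 4 * (2 ^ (5 / 8 : ℝ) * (N : ℝ) ^ (5 / 8 : ℝ)) := by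
            push_cast
            rw [Real.mul_rpow (by norm_num) hN0.le]
        _ ≤ 1 / 4 * (2 ^ (1 : ℝ) * (N : ℝ) ^ (5 / 8 : ℝ)) := by
            gcongr
            · norm_num
            · norm_num
        _ ≤ (N : ℝ) ^ (5 / 8 : ℝ) := by
            rw [Real.rpow_one]
            have : 0 < (N : ℝ) ^ (5 / 8 : ℝ) := by positivity
            linarith
        _ ≤ _ := Real.rpow_le_rpow_of_exponent_le (by linarith) (by linarith)
    · have h8 : 2 ≤ (N : ℝ) ^ (ρ / 2) := h6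
      calc 2 * (N : ℝ) ^ (1 - ρ) ≤ (N : ℝ) ^ (ρ / 2) * (N : ℝ) ^ (1 - ρ) := by gcongr
        _ = _ := by rw [← Real.rpow_add hN0]; congr 1; ring
  obtain ⟨N₁, hN₁⟩ := eventually_atTop.1 ev
  refine ⟨ρ / 2, by positivity, by linarith, N₀ + N₁ + 4, fun N N' hN hN' ξ hξ1 hξ2 => ?_⟩
  obtain ⟨h1, h2⟩ := hN₁ N (by omega)
  have hN4 : (4 : ℝ) ≤ N := by exact_mod_cast (by omega : 4 ≤ N)
  have hN0 : (0 : ℝ) < N := by linarith
  rcases Nat.lt_or_ge N N' with hlt | hge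
  swap
  · rw [Ioc_eq_empty_of_le hge]
    simp
    positivity
  set E : ℝ := (N : ℝ) ^ (1 - ρ) + 2 * √((2 * N : ℕ) : ℝ) * Real.log ((2 * N : ℕ) : ℝ) with hE
  have hpart : ∀ t, N < t → t ≤ N' →
      ‖∑ i ∈ Ioc N t, (((if i.Prime then Real.log i else 0 : ℝ)) : ℂ) * e (ξ / (i : ℝ))‖ ≤ E := by
    intro t ht1 ht2
    have h3 := h N t (by omega) ht1.le (by omega) ξ hξ1 hξ2
    have h4 := prime_bound N t (by omega) (fun i => e (ξ / (i : ℝ))) (fun i => (norm_e _).le) _ h3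
    refine h4.trans ?_
    rw [hE]
    have ht : (t : ℝ) ≤ ((2 * N : ℕ) : ℝ) := by exact_mod_cast (by omega : t ≤ 2 * N)
    have ht1' : (1 : ℝ) ≤ t := by exact_mod_cast (by omega : 1 ≤ t)
    have := Real.log_nonneg ht1'
    gcongr
  have hab := abel_bound (fun i => 1 / Real.log i)
    (fun i => (((if i.Prime then Real.log i else 0 : ℝ)) : ℂ) * e (ξ / (i : ℝ))) N E
    (fun i hi => by
      have : (1 : ℝ) ≤ i := by exact_mod_cast (by omega : 1 ≤ i)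
      have := Real.log_nonneg this
      positivity)
    (fun i hi => by
      have h5 : (4 : ℝ) ≤ i := by exact_mod_cast (by omega : 4 ≤ i)
      have h6 : 0 < Real.log i := Real.log_pos (by linarith)
      apply one_div_le_one_div_of_le h6
      apply Real.log_le_log (by linarith)
      push_cast
      linarith)
    N' hlt hpart
  have e1 : ∑ i ∈ Ioc N N', (((1 / Real.log i : ℝ)) : ℂ) *
      ((((if i.Prime then Real.log i else 0 : ℝ)) : ℂ) * e (ξ / (i : ℝ))) =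
      ∑ q ∈ (Ioc N N').filter Nat.Prime, e (ξ / (q : ℝ)) := by
    rw [sum_filter]
    refine sum_congr rfl fun i hi => ?_
    rw [mem_Ioc] at hi
    split_ifs with hp
    · have h5 : (4 : ℝ) ≤ i := by exact_mod_cast (by omega : 4 ≤ i)
      have h6 : Real.log i ≠ 0 := (Real.log_pos (by linarith)).ne'
      rw [← mul_assoc, ← Complex.ofReal_mul, one_div_mul_cancel h6, Complex.ofReal_one, one_mul]
    · simp
  rw [e1] at hab
  refine hab.trans ?_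
  have h7 : 1 / Real.log ((N + 1 : ℕ) : ℝ) ≤ 1 := by
    have h8 : (1 : ℝ) ≤ Real.log ((N + 1 : ℕ) : ℝ) := by
      rw [Real.le_log_iff_exp_le (by positivity)]
      have := Real.exp_one_lt_d9
      push_cast
      linarith
    rw [div_le_one (by linarith)]
    exact h8
  have hE0 : 0 ≤ E := by
    have h5 : (1 : ℝ) ≤ ((2 * N : ℕ) : ℝ) := by push_cast; linarith
    have := Real.log_nonneg h5
    positivity
  calc 1 / Real.log ((N + 1 : ℕ) : ℝ) * E ≤ 1 * E := by gcongr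
    _ ≤ 2 * (N : ℝ) ^ (1 - ρ) := by rw [hE]; linarith
    _ ≤ _ := h2

end Pool.Agent.W5h31.LC
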