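import Pool.Agent.W5h31.LC.Supp3

set_option autoImplicit false

/-!
The least common multiple of a block determines its position up to a factor `k`.
-/

namespace Pool.Agent.W5h31.LC

open Finset

/-- the product of a block of length `k + 1` divides `k!` times each common multiple -/
lemma prod_dvd_fact (k : ℕ) : ∀ x L : ℕ, (∀ i, 1 ≤ i → i ≤ k + 1 → x + i ∣ L) →
    ∏ i ∈ range (k + 1), (x + 1 + i) ∣ k.factorial * L := by
  induction k with
  | zero =>
    intro x L h
    simpa using h 1 le_rfl le_rfl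
  | succ k ih =>
    intro x L h
    have h1 := ih x L (fun i hi1 hi2 => h i hi1 (by omega))
    have h2 := ih (x + 1) L (fun i hi1 hi2 => by
      have := h (i + 1) (by omega) (by omega)
      rwa [show x + (i + 1) = x + 1 + i by ring] at this)
    have e1 : ∏ i ∈ range (k + 1 + 1), (x + 1 + i) =
        (∏ i ∈ range (k + 1), (x + 1 + i)) * (x + 1 + (k + 1)) := prod_range_succ _ _
    have e2 : ∏ i ∈ range (k + 1 + 1), (x + 1 + i) =
        (x + 1) * ∏ i ∈ range (k + 1), (x + 1 + 1 + i) := by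
      rw [prod_range_succ', mul_comm]
      congr 1
      refine prod_congr rfl fun i _ => by ring
    have d1 : ∏ i ∈ range (k + 1 + 1), (x + 1 + i) ∣ (k.factorial * L) * (x + 1 + (k + 1)) := by
      rw [e1]; exact mul_dvd_mul_right h1 _
    have d2 : ∏ i ∈ range (k + 1 + 1), (x + 1 + i) ∣ (k.factorial * L) * (x + 1) := by
      rw [e2, mul_comm (k.factorial * L)]; exact mul_dvd_mul_left _ h2
    have d3 := Nat.dvd_sub d1 d2
    have e3 : (k.factorial * L) * (x + 1 + (k + 1)) - (k.factorial * L) * (x + 1) =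
        (k + 1).factorial * L := by
      rw [← Nat.mul_sub, Nat.factorial_succ, show x + 1 + (k + 1) - (x + 1) = k + 1 by omega]
      ring
    rwa [e3] at d3

/-- equal least common multiples force the upper block to be close -/
lemma le_of_lcm_eq (n m k : ℕ) (hk : 1 ≤ k)
    (h : (Icc (m + 1) (m + k)).lcm id = (Icc (n + 1) (n + k)).lcm id) : m + 1 ≤ k * (n + k) := by
  obtain ⟨j, rfl⟩ : ∃ j, k = j + 1 := ⟨k - 1, by omega⟩
  set L := (Icc (n + 1) (n + (j + 1))).lcm id with hL
  have hL0 : L ∣ ∏ i ∈ range (j + 1), (n + 1 + i) := by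
    rw [hL]
    refine Finset.lcm_dvd fun b hb => ?_
    rw [mem_Icc] at hb
    have : id b = n + 1 + (b - (n + 1)) := by simp; omega
    rw [this]
    exact dvd_prod_of_mem (fun i => n + 1 + i) (mem_range.2 (by omega))
  have h1 := prod_dvd_fact j m L (fun i hi1 hi2 => by
    rw [← h]
    exact Finset.dvd_lcm (f := id) (mem_Icc.2 ⟨by omega, by omega⟩))
  have h2 : ∏ i ∈ range (j + 1), (m + 1 + i) ∣ j.factorial * ∏ i ∈ range (j + 1), (n + 1 + i) :=
    h1.trans (mul_dvd_mul_left _ hL0)
  have h3 := Nat.le_of_dvd (Nat.mul_pos (Nat.factorial_pos _) (prod_pos fun i _ => by omega)) h2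
  have h4 : (m + 1) ^ (j + 1) ≤ ∏ i ∈ range (j + 1), (m + 1 + i) := by
    rw [← card_range (j + 1), ← prod_const, card_range]
    exact prod_le_prod' fun i _ => by omega
  have h5 : ∏ i ∈ range (j + 1), (n + 1 + i) ≤ (n + (j + 1)) ^ (j + 1) := by
    calc ∏ i ∈ range (j + 1), (n + 1 + i) ≤ ∏ _i ∈ range (j + 1), (n + (j + 1)) :=
          prod_le_prod' fun i hi => by rw [mem_range] at hi; omega
      _ = (n + (j + 1)) ^ (j + 1) := by rw [prod_const, card_range]
  have h6 : j.factorial ≤ (j + 1) ^ (j + 1) :=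
    (Nat.factorial_le_pow j).trans ((Nat.pow_le_pow_left (by omega) j).trans
      (Nat.pow_le_pow_right (by omega) (by omega)))
  have h7 : (m + 1) ^ (j + 1) ≤ ((j + 1) * (n + (j + 1))) ^ (j + 1) := by
    rw [mul_pow]
    exact h4.trans (h3.trans (Nat.mul_le_mul h6 h5))
  exact (Nat.pow_le_pow_iff_left (by omega)).1 h7

lemma prime_dvd_block (q n k : ℕ) (hq : q.Prime) :
    q ∣ (Icc (n + 1) (n + k)).lcm id ↔ ∃ i, n < i ∧ i ≤ n + k ∧ q ∣ i := by
  constructor
  · intro h
    by_contra hcon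
    push Not at hcon
    have hL0 : (Icc (n + 1) (n + k)).lcm id ∣ ∏ i ∈ Icc (n + 1) (n + k), i := by
      refine Finset.lcm_dvd fun b hb => ?_
      exact dvd_prod_of_mem (fun i => i) hb
    obtain ⟨i, hi, hqi⟩ := (Prime.dvd_finset_prod_iff hq.prime _).1 (h.trans hL0)
    rw [mem_Icc] at hi
    exact hcon i (by omega) hi.2 hqi
  · rintro ⟨i, h1, h2, h3⟩
    exact h3.trans (Finset.dvd_lcm (f := id) (mem_Icc.2 ⟨by omega, h2⟩))

end Pool.Agent.W5h31.LC
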