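import Pool.Agent.W5h31.LC.Count

set_option autoImplicit false

/-!
The asymptotic forms of the estimates.
-/

namespace Pool.Agent.W5h31.LC

open Finset Filter Topology
open Pool.Agent.H469R2.NK (e norm_e e_add conj_e)

/-- the primes in `(N, N']` -/
def P (N N' : ℕ) : Finset ℕ := (Ioc N N').filter Nat.Prime

lemma mem_P {N N' q : ℕ} : q ∈ P N N' ↔ (N < q ∧ q ≤ N') ∧ q.Prime := by
  simp [P]

lemma card_P_le (N N' : ℕ) : (P N N').card ≤ N' - N := by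
  unfold P
  refine (card_filter_le _ _).trans ?_
  rw [Nat.card_Ioc]

lemma err (ρ : ℝ) (h0 : 0 < ρ) (h1 : ρ ≤ 1 / 8) : ∀ᶠ k : ℕ in atTop, ∃ K : ℕ, ∃ δ : ℝ,
    1 ≤ K ∧ 0 < δ ∧ δ ≤ 1 ∧ (K : ℝ) + 3 ≤ k ∧
    ∀ s : ℝ, 0 ≤ s → s ≤ 4 * k →
      4 * (2 * (k : ℝ) ^ (1 - ρ) * K + 2 * s / (K * δ) + 6 * δ * s) + 2 * (k : ℝ) ^ (1 - ρ) ≤
        (k : ℝ) ^ (1 - ρ / 8) := by
  filter_upwards [evp (1 - ρ / 4) (1 - ρ / 8) 146 (by linarith), evp (ρ / 2) 1 5 (by linarith),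
    eventually_ge_atTop 1] with k h2 h3 h4
  have hk1 : (1 : ℝ) ≤ k := by exact_mod_cast h4
  have hk0 : (0 : ℝ) < k := by linarith
  set x : ℝ := (k : ℝ) ^ (ρ / 2) with hx
  have hx1 : 1 ≤ x := Real.one_le_rpow hk1 (by linarith)
  have hK1 : x ≤ (⌈x⌉₊ : ℝ) := Nat.le_ceil x
  have hK2 : (⌈x⌉₊ : ℝ) ≤ 2 * x := by
    have := Nat.ceil_lt_add_one (show 0 ≤ x by linarith)
    linarith
  set K : ℝ := (⌈x⌉₊ : ℝ) with hK
  set δ : ℝ := (k : ℝ) ^ (-(ρ / 4)) with hδ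
  have hδ0 : 0 < δ := by positivity
  have hδ1 : δ ≤ 1 := Real.rpow_le_one_of_one_le_of_nonpos hk1 (by linarith)
  set Z : ℝ := (k : ℝ) ^ (1 - ρ / 4) with hZ
  have hZ0 : 0 < Z := by positivity
  refine ⟨⌈x⌉₊, δ, Nat.one_le_ceil_iff.2 (by linarith), hδ0, hδ1, ?_, ?_⟩
  · rw [Real.rpow_one] at h3
    linarith
  · intro s hs0 hs1
    have hE : (k : ℝ) ^ (1 - ρ) ≤ Z := Real.rpow_le_rpow_of_exponent_le hk1 (by linarith)
    have hE0 : 0 < (k : ℝ) ^ (1 - ρ) := by positivity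
    have hEx : (k : ℝ) ^ (1 - ρ) * x ≤ Z := by
      rw [hx, ← Real.rpow_add hk0]
      exact Real.rpow_le_rpow_of_exponent_le hk1 (by linarith)
    have h5 : 2 * (k : ℝ) ^ (1 - ρ) * K ≤ 4 * Z := by
      calc 2 * (k : ℝ) ^ (1 - ρ) * K ≤ 2 * (k : ℝ) ^ (1 - ρ) * (2 * x) := by gcongr
        _ = 4 * ((k : ℝ) ^ (1 - ρ) * x) := by ring
        _ ≤ 4 * Z := by gcongr
    have hxd : x * δ * Z = k := by
      rw [hx, hδ, hZ, ← Real.rpow_add hk0, ← Real.rpow_add hk0]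
      have : ρ / 2 + -(ρ / 4) + (1 - ρ / 4) = 1 := by ring
      rw [this, Real.rpow_one]
    have h6 : 2 * s / (K * δ) ≤ 8 * Z := by
      rw [div_le_iff₀ (by positivity)]
      have : x * δ * Z ≤ K * δ * Z := by gcongr
      nlinarith
    have hdk : δ * k = Z := by
      rw [hδ, hZ]
      nth_rewrite 2 [← Real.rpow_one (k : ℝ)]
      rw [← Real.rpow_add hk0]
      congr 1; ring
    have h7 : 6 * δ * s ≤ 24 * Z := by
      have : δ * s ≤ δ * (4 * k) := by gcongr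
      nlinarith
    linarith

/-- the counting estimate near `k` -/
theorem count_k (d : ℕ) (hd : 1 ≤ d) (δ : ℝ) (hδ : 0 < δ) : ∃ ρ : ℝ, 0 < ρ ∧ ρ ≤ 1 / 8 ∧
    ∀ᶠ k : ℕ in atTop, ∀ N N' m : ℕ, k ≤ N → N ≤ 4 * k → N' ≤ 2 * N → (k : ℝ) ^ (1 + δ) ≤ m →
    m ≤ k ^ d →
    |∑ q ∈ P N N', (mu k m q : ℝ) - ∑ q ∈ P N N', (k : ℝ) / q| ≤ (k : ℝ) ^ (1 - ρ) := by
  obtain ⟨ρ, hρ0, hρ1, h⟩ := exp_k (d + 2) δ hδ
  refine ⟨ρ / 8, by positivity, by linarith, ?_⟩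
  filter_upwards [h, err ρ hρ0 hρ1, eventually_ge_atTop 2] with k h1 h2 h3
  intro N N' m hN1 hN2 hN' hm1 hm2
  obtain ⟨K, η, hK, hη0, hη1, hK3, hs⟩ := h2
  have hk2 : (2 : ℝ) ≤ k := by exact_mod_cast h3
  have hm2' : (m : ℝ) ≤ (k : ℝ) ^ d := by exact_mod_cast hm2
  have hkd : (k : ℝ) ≤ (k : ℝ) ^ d := le_self_pow₀ (by linarith) (by omega)
  have hcard : ((P N N').card : ℝ) ≤ 4 * k := by
    have := card_P_le N N'
    exact_mod_cast (by omega : (P N N').card ≤ 4 * k)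
  have hcard0 : (0 : ℝ) ≤ ((P N N').card : ℝ) := by positivity
  have h4 := count_mu k m K (P N N') (fun q hq => (mem_P.1 hq).2.pos) η ((k : ℝ) ^ (1 - ρ))
    ((k : ℝ) ^ (1 + δ)) ((k : ℝ) ^ (d + 2)) hη0 hη1 hK (by positivity)
    (fun ξ hξ1 hξ2 => h1 N N' hN1 hN2 hN' ξ hξ1 hξ2) hm1 (by
      have e1 : (K : ℝ) * (m + k) ≤ k * (k ^ d + k ^ d) := by
        apply mul_le_mul (by linarith) (by linarith) (by positivity) (by positivity)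
      have e2 : (k : ℝ) * (k ^ d + k ^ d) = 2 * (k : ℝ) ^ (d + 1) := by ring
      have e3 : 2 * (k : ℝ) ^ (d + 1) ≤ (k : ℝ) ^ (d + 2) := by
        rw [pow_succ _ (d + 1)]
        have : (0 : ℝ) < (k : ℝ) ^ (d + 1) := by positivity
        nlinarith
      linarith)
  refine h4.trans ?_
  have h5 := hs _ hcard0 hcard
  have e1 : 0 ≤ (k : ℝ) ^ (1 - ρ) * K := by positivity
  have e2 : 0 ≤ (k : ℝ) ^ (1 - ρ) := by positivity
  have e3 : 0 ≤ ((P N N').card : ℝ) / (K * η) := by positivity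
  have e4 : 0 ≤ η * ((P N N').card : ℝ) := by positivity
  have e5 : 2 * ((P N N').card : ℝ) / (K * η) = 2 * (((P N N').card : ℝ) / (K * η)) := by ring
  rw [e5] at h5
  nlinarith

/-- the correlation estimate near `k` -/
theorem core_k (d : ℕ) (hd : 1 ≤ d) (δ : ℝ) (hδ : 0 < δ) : ∃ ρ : ℝ, 0 < ρ ∧ ρ ≤ 1 / 8 ∧
    ∀ᶠ k : ℕ in atTop, ∀ n m : ℕ, (k : ℝ) ^ (1 + δ) ≤ n → n ≤ m → m ≤ k ^ d →
    (∀ q : ℕ, q.Prime → k < q → mu k n q = mu k m q) →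
    ∑ q ∈ P k (2 * k), Real.sin (Real.pi * k / q) *
      (1 - Real.cos (2 * Real.pi * (((m : ℝ) - n) / q))) ≤ (k : ℝ) ^ (1 - ρ) := by
  obtain ⟨ρ, hρ0, hρ1, h⟩ := exp_k (d + 2) (δ / 2) (by positivity)
  refine ⟨ρ / 16, by positivity, by linarith, ?_⟩
  filter_upwards [h, err ρ hρ0 hρ1, eventually_ge_atTop 2, evp (1 + δ / 2) (1 + δ) 2 (by linarith),
    evp (1 - ρ / 8) (1 - ρ / 16) 4 (by linarith)] with k h1 h2 h3 h6 h7
  intro n m hn hnm hm2 hmu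
  obtain ⟨K, η, hK, hη0, hη1, hK3, hs⟩ := h2
  have hk2 : (2 : ℝ) ≤ k := by exact_mod_cast h3
  have hm2' : (m : ℝ) ≤ (k : ℝ) ^ d := by exact_mod_cast hm2
  have hkd : (k : ℝ) ≤ (k : ℝ) ^ d := le_self_pow₀ (by linarith) (by omega)
  have hcard : ((P k (2 * k)).card : ℝ) ≤ 4 * k := by
    have := card_P_le k (2 * k)
    exact_mod_cast (by omega : (P k (2 * k)).card ≤ 4 * k)
  have hcard0 : (0 : ℝ) ≤ ((P k (2 * k)).card : ℝ) := by positivity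
  have hk' : (k : ℝ) ≤ (k : ℝ) ^ (1 + δ / 2) := by
    nth_rewrite 1 [← Real.rpow_one (k : ℝ)]
    exact Real.rpow_le_rpow_of_exponent_le (by linarith) (by linarith)
  have h4 := core k n m K (P k (2 * k)) (fun q hq => (mem_P.1 hq).2.pos) η ((k : ℝ) ^ (1 - ρ))
    ((k : ℝ) ^ (1 + δ / 2)) ((k : ℝ) ^ (d + 2)) hη0 hη1 hK (by positivity)
    (fun ξ hξ1 hξ2 => h1 k (2 * k) le_rfl (by omega) le_rfl ξ hξ1 hξ2) (by linarith) hnm (by
      have e1 : ((K : ℝ) + 3) * (m + k) ≤ k * (k ^ d + k ^ d) := by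
        apply mul_le_mul (by linarith) (by linarith) (by positivity) (by positivity)
      have e2 : (k : ℝ) * (k ^ d + k ^ d) = 2 * (k : ℝ) ^ (d + 1) := by ring
      have e3 : 2 * (k : ℝ) ^ (d + 1) ≤ (k : ℝ) ^ (d + 2) := by
        rw [pow_succ _ (d + 1)]
        have : (0 : ℝ) < (k : ℝ) ^ (d + 1) := by positivity
        nlinarith
      linarith)
  have h5 := hs _ hcard0 hcard
  have e0 : ∑ q ∈ P k (2 * k), (1 + Real.cos (2 * Real.pi * (((n : ℝ) + k / 2) / q))) *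
      ((mu k n q : ℝ) - mu k m q) = 0 := by
    refine sum_eq_zero fun q hq => ?_
    rw [mem_P] at hq
    rw [hmu q hq.2 hq.1.1]
    ring
  rw [e0, zero_add] at h4
  have hpi : Real.pi ≤ 4 := Real.pi_le_four
  have hpi0 : 0 < Real.pi := Real.pi_pos
  have h8 : 1 / Real.pi * ∑ q ∈ P k (2 * k), Real.sin (Real.pi * k / q) *
      (1 - Real.cos (2 * Real.pi * (((m : ℝ) - n) / q))) ≤ (k : ℝ) ^ (1 - ρ / 8) := h4.trans h5
  rw [one_div, inv_mul_le_iff₀ hpi0] at h8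
  have h9 : Real.pi * (k : ℝ) ^ (1 - ρ / 8) ≤ 4 * (k : ℝ) ^ (1 - ρ / 8) := by gcongr
  linarith

/-- Hoheisel's theorem near `k` -/
theorem hoh_k : ∃ δ η : ℝ, 0 < δ ∧ δ < 1 ∧ 0 < η ∧ ∀ᶠ k : ℕ in atTop, ∀ N Y : ℕ, k ≤ N → N ≤ 4 * k →
    (k : ℝ) ^ (1 - δ) ≤ Y → Y ≤ N → η * Y ≤ ((P N (N + Y)).card : ℝ) * Real.log k := by
  obtain ⟨δ, η, hδ0, hδ1, hη, X₀, hX, h⟩ := hoh
  refine ⟨δ / 2, η / 2, by positivity, by linarith, by positivity, ?_⟩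
  filter_upwards [evp (1 - δ) (1 - δ / 2) (4 ^ (1 - δ)) (by linarith), eventually_ge_atTop (X₀ + 4)]
    with k h1 h2
  intro N Y hN1 hN2 hY1 hY2
  have hk4 : (4 : ℝ) ≤ k := by exact_mod_cast (by omega : 4 ≤ k)
  have hNk : (k : ℝ) ≤ N := by exact_mod_cast hN1
  have hN4 : (N : ℝ) ≤ 4 * k := by exact_mod_cast hN2
  have hN0 : (0 : ℝ) < N := by linarith
  have h3 : (N : ℝ) ^ (1 - δ) ≤ Y := by
    calc (N : ℝ) ^ (1 - δ) ≤ (4 * k : ℝ) ^ (1 - δ) := Real.rpow_le_rpow hN0.le hN4 (by linarith)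
      _ = 4 ^ (1 - δ) * (k : ℝ) ^ (1 - δ) := Real.mul_rpow (by norm_num) (by linarith)
      _ ≤ _ := h1
      _ ≤ _ := hY1
  have h4 := h N Y (by omega) h3 hY2
  have hlog : Real.log N ≤ 2 * Real.log k := by
    have h5 : Real.log N ≤ Real.log (k * k) := Real.log_le_log hN0 (by nlinarith)
    rw [Real.log_mul (by positivity) (by positivity)] at h5
    linarith
  have hlogN : 0 < Real.log N := Real.log_pos (by linarith)
  rw [div_le_iff₀ hlogN] at h4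
  have h6 : (((Ioc N (N + Y)).filter Nat.Prime).card : ℝ) * Real.log N ≤
      (((Ioc N (N + Y)).filter Nat.Prime).card : ℝ) * (2 * Real.log k) := by gcongr
  unfold P
  linarith

end Pool.Agent.W5h31.LC
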