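import Pool.Agent.W5h31.LC.Supp1

set_option autoImplicit false

/-!
The cases of the support theorem.
-/

namespace Pool.Agent.W5h31.LC

open Finset Filter Topology
open Pool.Agent.H469R2.NK (e norm_e e_add conj_e)

lemma mu_zero (k n q : ℕ) (h : n + k < q) : mu k n q = 0 := by
  unfold mu
  rw [Nat.div_eq_of_lt h, Nat.zero_sub]

lemma mu_one (k n q t : ℕ) (hq : k < q) (h1 : n < t * q) (h2 : t * q ≤ n + k) : mu k n q = 1 := by
  have h3 := mu_le k n q hq
  have h4 : 0 < mu k n q := (mu_pos_iff k n q (by omega)).2 ⟨t * q, h1, h2, Dvd.intro_left _ rfl⟩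
  omega

/-- the case `n` small, `4 n < k` -/
theorem case_small (d : ℕ) (hd : 1 ≤ d) (δ : ℝ) (hδ : 0 < δ) : ∀ᶠ k : ℕ in atTop, ∀ n m : ℕ,
    4 * n < k → (k : ℝ) ^ (1 + δ) ≤ m → m ≤ k ^ d →
    ¬ (∀ q : ℕ, q.Prime → k < q → mu k n q = mu k m q) := by
  obtain ⟨ρ, hρ0, hρ1, h⟩ := count_k d hd δ hδ
  obtain ⟨δ0, η, hδ0, hδ1, hη, hH⟩ := hoh_k
  filter_upwards [h, hH, eventually_ge_atTop 100, evl (1 - ρ) 1 (9 / η) (by linarith),
    evp (1 - δ0) 1 8 (by linarith)] with k h1 h2 h3 h4 h5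
  intro n m hn hm1 hm2 hmu
  have hk100 : (100 : ℝ) ≤ k := by exact_mod_cast h3
  have hlog : 0 < Real.log k := Real.log_pos (by linarith)
  rw [Real.rpow_one] at h4 h5
  -- primes in `(2k - Y, 2k]`
  set Y : ℕ := k / 2 with hY
  set N : ℕ := 2 * k - Y with hN
  have hNY : N + Y = 2 * k := by omega
  have hYr : (k : ℝ) / 2 - 1 ≤ Y := by
    have : (k : ℝ) ≤ 2 * Y + 1 := by exact_mod_cast (by omega : k ≤ 2 * Y + 1)
    linarith
  have c1 := h2 N Y (by omega) (by omega) (by linarith) (by omega)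
  have c2 := h1 N (N + Y) m (by omega) (by omega) (by omega) hm1 hm2
  have c3 : ∑ q ∈ P N (N + Y), (mu k m q : ℝ) = 0 := by
    refine sum_eq_zero fun q hq => ?_
    rw [mem_P] at hq
    rw [← hmu q hq.2 (by omega), mu_zero k n q (by omega)]
    simp
  rw [c3, zero_sub, abs_neg] at c2
  have c4 : ((P N (N + Y)).card : ℝ) * (1 / 2) ≤ ∑ q ∈ P N (N + Y), (k : ℝ) / q := by
    rw [← nsmul_eq_mul, ← sum_const]
    refine sum_le_sum fun q hq => ?_
    rw [mem_P, hNY] at hq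
    have : (q : ℝ) ≤ 2 * k := by exact_mod_cast hq.1.2
    have hq0 : (0 : ℝ) < q := by exact_mod_cast hq.2.pos
    rw [div_le_div_iff₀ (by norm_num) hq0]
    linarith
  have c5 : ((P N (N + Y)).card : ℝ) ≤ 2 * (k : ℝ) ^ (1 - ρ) := by
    have := le_abs_self (∑ q ∈ P N (N + Y), (k : ℝ) / q)
    linarith
  have c6 : η * Y ≤ 2 * (k : ℝ) ^ (1 - ρ) * Real.log k :=
    c1.trans (mul_le_mul_of_nonneg_right c5 hlog.le)
  have c7 : 9 * ((k : ℝ) ^ (1 - ρ) * Real.log k) ≤ η * k := by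
    have : 9 / η * (k : ℝ) ^ (1 - ρ) * Real.log k = 9 * ((k : ℝ) ^ (1 - ρ) * Real.log k) / η := by ring
    rw [this, div_le_iff₀ hη] at h4
    linarith
  have c8 : 0 < (k : ℝ) ^ (1 - ρ) * Real.log k := by positivity
  nlinarith

/-- the case `k / 4 ≤ n ≤ k^(1+ε)` -/
theorem case_mid (d : ℕ) (hd : 1 ≤ d) (δ : ℝ) (hδ : 0 < δ) : ∃ ε : ℝ, 0 < ε ∧ ∀ᶠ k : ℕ in atTop,
    ∀ n m : ℕ, k ≤ 4 * n → (n : ℝ) ≤ (k : ℝ) ^ (1 + ε) → (k : ℝ) ^ (1 + δ) ≤ m → m ≤ k ^ d →
    ¬ (∀ q : ℕ, q.Prime → k < q → mu k n q = mu k m q) := by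
  obtain ⟨ρ, hρ0, hρ1, h⟩ := count_k d hd δ hδ
  obtain ⟨δ0, η, hδ0, hδ1, hη, hH⟩ := hoh_k
  set ε : ℝ := min (ρ / 2) (δ0 / 2) with hε
  have hε0 : 0 < ε := lt_min (by linarith) (by linarith)
  have hε1 : ε ≤ ρ / 2 := min_le_left _ _
  have hε2 : ε ≤ δ0 / 2 := min_le_right _ _
  refine ⟨ε, hε0, ?_⟩
  filter_upwards [h, hH, eventually_ge_atTop 100, evl (1 - ρ) (1 - ε) (111 / η) (by linarith),
    evp (1 - δ0) (1 - ε) 10 (by linarith), evp 0 (1 - ε) 100 (by linarith)] with k h1 h2 h3 h4 h5 h6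
  intro n m hn hn2 hm1 hm2 hmu
  have hk100 : (100 : ℝ) ≤ k := by exact_mod_cast h3
  have hk0 : (0 : ℝ) < k := by linarith
  have hlog : 0 < Real.log k := Real.log_pos (by linarith)
  rw [Real.rpow_zero] at h6
  set Z : ℝ := (k : ℝ) ^ (1 - ε) with hZ
  have hZ0 : 0 < Z := by positivity
  have hnr : (k : ℝ) ≤ 4 * n := by exact_mod_cast hn
  -- the multiplier
  set t : ℕ := max 1 (10 * n / (11 * k)) with ht
  have ht1 : 1 ≤ t := le_max_left _ _
  have ht1r : (1 : ℝ) ≤ t := by exact_mod_cast ht1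
  have ht0 : (0 : ℝ) < t := by linarith
  have htZ : (t : ℝ) * Z ≤ k := by
    have hZk : Z ≤ k := by
      rw [hZ]
      nth_rewrite 2 [← Real.rpow_one (k : ℝ)]
      exact Real.rpow_le_rpow_of_exponent_le (by linarith) (by linarith)
    rcases le_total (10 * n / (11 * k)) 1 with h7 | h7
    · have : t = 1 := max_eq_left h7
      rw [this]; simpa using hZk
    · have : t = 10 * n / (11 * k) := max_eq_right h7
      have h8 : t * (11 * k) ≤ 10 * n := by rw [this]; exact Nat.div_mul_le_self _ _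
      have h9 : (t : ℝ) * (11 * k) ≤ 10 * n := by exact_mod_cast h8
      have h10 : (t : ℝ) * k ≤ (k : ℝ) ^ (1 + ε) := by nlinarith
      have h11 : (k : ℝ) ^ (1 + ε) * Z = k * k := by
        rw [hZ, ← Real.rpow_add hk0]
        have : 1 + ε + (1 - ε) = 2 := by ring
        rw [this, Real.rpow_two]; ring
      have h12 : (t : ℝ) * k * Z ≤ (k : ℝ) ^ (1 + ε) * Z := by gcongr
      rw [h11] at h12
      have h13 : (t : ℝ) * Z * k ≤ k * k := by linarith
      exact le_of_mul_le_mul_right h13 hk0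
  -- the endpoints
  set A : ℕ := max (n / t) ((11 * k + 9) / 10) with hA
  set B' : ℕ := (n + k) / t with hB
  have hA1 : n / t ≤ A := le_max_left _ _
  have hA2 : (11 * k + 9) / 10 ≤ A := le_max_right _ _
  have hA2r : (11 : ℝ) / 10 * k ≤ A := by
    have : 11 * k ≤ 10 * ((11 * k + 9) / 10) := by omega
    have h8 : 11 * k ≤ 10 * A := by omega
    have h9 : (11 : ℝ) * k ≤ 10 * A := by exact_mod_cast h8
    linarith
  have hBr : (t : ℝ) * B' ≤ n + k := by
    have : t * B' ≤ n + k := Nat.mul_div_le _ _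
    exact_mod_cast this
  have hBr2 : (n : ℝ) + k ≤ t * B' + t := by
    have : n + k < t * (B' + 1) := by
      rw [hB]; exact Nat.lt_mul_div_succ _ (by omega)
    have : n + k ≤ t * B' + t := by nlinarith
    exact_mod_cast this
  have hAn : (n : ℝ) ≤ t * A + t := by
    have h8 : n < t * (n / t + 1) := Nat.lt_mul_div_succ _ (by omega)
    have h9 : n ≤ t * A + t := by nlinarith
    exact_mod_cast h9
  -- the upper bound for `A`
  have key : (t : ℝ) * A ≤ max (n : ℝ) ((t : ℝ) * (11 / 10 * k + 9 / 10)) := by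
    rcases le_total ((11 * k + 9) / 10) (n / t) with h8 | h8
    · have h9 : A = n / t := max_eq_left h8
      rw [h9]
      refine le_trans ?_ (le_max_left _ _)
      have : t * (n / t) ≤ n := Nat.mul_div_le _ _
      exact_mod_cast this
    · have h9 : A = (11 * k + 9) / 10 := max_eq_right h8
      rw [h9]
      refine le_trans ?_ (le_max_right _ _)
      have h10 : 10 * ((11 * k + 9) / 10) ≤ 11 * k + 9 := by omega
      have h11 : (10 : ℝ) * (((11 * k + 9) / 10 : ℕ) : ℝ) ≤ 11 * k + 9 := by exact_mod_cast h10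
      have h12 : ((((11 * k + 9) / 10 : ℕ)) : ℝ) ≤ 11 / 10 * k + 9 / 10 := by linarith
      gcongr
  have htn : t = 1 ∨ (t : ℝ) * (11 * k) ≤ 10 * n := by
    rcases le_total (10 * n / (11 * k)) 1 with h7 | h7
    · left; exact max_eq_left h7
    · right
      have : t = 10 * n / (11 * k) := max_eq_right h7
      have h8 : t * (11 * k) ≤ 10 * n := by rw [this]; exact Nat.div_mul_le_self _ _
      exact_mod_cast h8
  have htn2 : (10 : ℝ) * n ≤ (t + 1) * (11 * k) := by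
    have h7 : 10 * n / (11 * k) ≤ t := le_max_right _ _
    have h8 : 10 * n < (11 * k) * (10 * n / (11 * k) + 1) := Nat.lt_mul_div_succ _ (by omega)
    have h9 : 10 * n ≤ (t + 1) * (11 * k) := by nlinarith
    exact_mod_cast h9
  have hBA : (15 / 100 : ℝ) * k ≤ t * B' - t * A + 2 * t := by
    rcases htn with h7 | h7
    · rw [h7] at hBr2 key ⊢
      rcases max_cases (n : ℝ) (((1 : ℕ) : ℝ) * (11 / 10 * k + 9 / 10)) with ⟨h8, _⟩ | ⟨h8, _⟩
      · rw [h8] at key
        push_cast at *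
        linarith
      · rw [h8] at key
        push_cast at *
        linarith
    · have h9 : (t : ℝ) * (11 / 10 * k + 9 / 10) ≤ n + t := by nlinarith
      have h10 : (t : ℝ) * A ≤ n + t := key.trans (max_le (by linarith) h9)
      linarith
  have hlen : Z / 10 ≤ (B' : ℝ) - A := by
    have h7 : (15 / 100 : ℝ) * (t * Z) ≤ t * B' - t * A + 2 * t := by nlinarith
    have h8 : t * ((15 / 100 : ℝ) * Z) ≤ t * (B' - A + 2) := by linarith
    have h9 := le_of_mul_le_mul_left h8 ht0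
    linarith
  have hAB : A ≤ B' := by
    have : (A : ℝ) ≤ B' := by linarith
    exact_mod_cast this
  have hA4 : A ≤ 4 * k := by
    have h7 : (t : ℝ) * A ≤ t * (4 * k) := by
      refine key.trans (max_le ?_ ?_)
      · nlinarith
      · gcongr; linarith
    have h8 := le_of_mul_le_mul_left h7 ht0
    exact_mod_cast h8
  have hB2 : B' ≤ 2 * A := by
    have h7 : (t : ℝ) * B' ≤ t * (2 * A) := by nlinarith
    have h8 := le_of_mul_le_mul_left h7 ht0
    exact_mod_cast h8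
  have hkA : k ≤ A := by omega
  -- Hoheisel's theorem
  have c1 := h2 A (B' - A) hkA hA4 (by rw [Nat.cast_sub hAB]; linarith) (by omega)
  rw [Nat.add_sub_cancel' hAB, Nat.cast_sub hAB] at c1
  have c2 := h1 A B' m hkA hA4 hB2 hm1 hm2
  have c3 : ∑ q ∈ P A B', (mu k m q : ℝ) = (P A B').card := by
    rw [← mul_one ((P A B').card : ℝ), ← nsmul_eq_mul, ← sum_const]
    refine sum_congr rfl fun q hq => ?_
    rw [mem_P] at hq
    rw [← hmu q hq.2 (by omega), mu_one k n q t (by omega)]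
    · simp
    · have h7 : n / t < q := by omega
      rwa [Nat.div_lt_iff_lt_mul (by omega), mul_comm] at h7
    · have h7 : t * q ≤ t * B' := Nat.mul_le_mul_left _ hq.1.2
      exact h7.trans (Nat.mul_div_le _ _)
  have c4 : ∑ q ∈ P A B', (k : ℝ) / q ≤ ((P A B').card : ℝ) * (10 / 11) := by
    rw [← nsmul_eq_mul, ← sum_const]
    refine sum_le_sum fun q hq => ?_
    rw [mem_P] at hq
    have : (A : ℝ) ≤ q := by exact_mod_cast hq.1.1.le
    have hq0 : (0 : ℝ) < q := by exact_mod_cast hq.2.pos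
    rw [div_le_div_iff₀ hq0 (by norm_num)]
    linarith
  have c5 : ((P A B').card : ℝ) ≤ 11 * (k : ℝ) ^ (1 - ρ) := by
    have := le_abs_self (∑ q ∈ P A B', (mu k m q : ℝ) - ∑ q ∈ P A B', (k : ℝ) / q)
    rw [c3] at this c2
    linarith
  have c6 : η * ((B' : ℝ) - A) ≤ 11 * (k : ℝ) ^ (1 - ρ) * Real.log k :=
    c1.trans (mul_le_mul_of_nonneg_right c5 hlog.le)
  have c7 : 111 * ((k : ℝ) ^ (1 - ρ) * Real.log k) ≤ η * Z := by
    have : 111 / η * (k : ℝ) ^ (1 - ρ) * Real.log k =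
      111 * ((k : ℝ) ^ (1 - ρ) * Real.log k) / η := by ring
    rw [this, div_le_iff₀ hη] at h4
    linarith
  have c8 : 0 < (k : ℝ) ^ (1 - ρ) * Real.log k := by positivity
  have c9 : η * (Z / 10) ≤ η * ((B' : ℝ) - A) := by gcongr
  nlinarith

end Pool.Agent.W5h31.LC
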