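import Pool.Agent.W5h31.LC.Supp2

set_option autoImplicit false

/-!
The case of large `n`, and the support theorem.
-/

namespace Pool.Agent.W5h31.LC

open Finset Filter Topology
open Pool.Agent.H469R2.NK (e norm_e e_add conj_e)

lemma sin_nonneg_term (k q : ℕ) (hq : k < q) : 0 ≤ Real.sin (Real.pi * k / q) := by
  have hq0 : (0 : ℝ) < q := by exact_mod_cast (by omega : 0 < q)
  have hkq : (k : ℝ) ≤ q := by exact_mod_cast hq.le
  apply Real.sin_nonneg_of_nonneg_of_le_pi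
  · positivity
  · rw [div_le_iff₀ hq0]
    have := Real.pi_pos
    nlinarith

lemma sin_lower (x c : ℝ) (h0 : c ≤ x) (h1 : x ≤ 1 - c) (hc : 0 ≤ c) :
    2 * c ≤ Real.sin (Real.pi * x) := by
  have hpi : 0 < Real.pi := Real.pi_pos
  rcases le_total x (1 / 2) with h | h
  · have := Real.mul_le_sin (x := Real.pi * x) (by nlinarith) (by nlinarith)
    have e1 : 2 / Real.pi * (Real.pi * x) = 2 * x := by field_simp
    linarith
  · have := Real.mul_le_sin (x := Real.pi * (1 - x)) (by nlinarith) (by nlinarith)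
    have e1 : 2 / Real.pi * (Real.pi * (1 - x)) = 2 * (1 - x) := by field_simp
    have e2 : Real.sin (Real.pi * x) = Real.sin (Real.pi * (1 - x)) := by
      rw [← Real.sin_pi_sub]; congr 1; ring
    rw [e2]
    linarith

lemma one_sub_cos (y : ℝ) : 1 - Real.cos (2 * Real.pi * y) = 2 * Real.sin (Real.pi * y) ^ 2 := by
  have h := Real.cos_sq' (Real.pi * y)
  have h2 := Real.cos_two_mul (Real.pi * y)
  have : 2 * Real.pi * y = 2 * (Real.pi * y) := by ring
  rw [this, h2, h]; ring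

lemma one_sub_cos_fract (y : ℝ) :
    1 - Real.cos (2 * Real.pi * y) = 2 * Real.sin (Real.pi * Int.fract y) ^ 2 := by
  rw [← one_sub_cos]
  congr 1
  have : 2 * Real.pi * Int.fract y = 2 * Real.pi * y - (⌊y⌋ : ℤ) * (2 * Real.pi) := by
    unfold Int.fract; ring
  rw [this, Real.cos_sub_int_mul_two_pi]

lemma cos_lower (y c : ℝ) (h0 : c ≤ Int.fract y) (h1 : Int.fract y ≤ 1 - c) (hc : 0 ≤ c) :
    8 * c ^ 2 ≤ 1 - Real.cos (2 * Real.pi * y) := by
  rw [one_sub_cos_fract]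
  have := sin_lower (Int.fract y) c h0 h1 hc
  nlinarith

/-- far apart blocks -/
theorem case_far (d : ℕ) (hd : 1 ≤ d) (δ δ' : ℝ) (hδ : 0 < δ) (hδ' : 0 < δ') : ∀ᶠ k : ℕ in atTop,
    ∀ n m : ℕ, (k : ℝ) ^ (1 + δ) ≤ n → (k : ℝ) ^ (1 + δ') ≤ (m : ℝ) - n → m ≤ k ^ d →
    ¬ (∀ q : ℕ, q.Prime → k < q → mu k n q = mu k m q) := by
  obtain ⟨ρ, hρ0, hρ1, h⟩ := core_k d hd δ hδ
  obtain ⟨σ, hσ0, hσ1, h'⟩ := exp_k (d + 1) (δ' / 2) (by positivity)
  obtain ⟨δ0, η, hδ0, hδ1, hη, hH⟩ := hoh_k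
  filter_upwards [h, h', hH, eventually_ge_atTop 100, evl (1 - ρ) 1 (18 / η) (by linarith),
    evl (1 - σ) 1 (18 / η) (by linarith), evp (1 - δ0) 1 8 (by linarith),
    evp (1 + δ' / 2) (1 + δ') 2 (by linarith)] with k h1 h2 h3 h4 h5 h6 h7 h8
  intro n m hn hnm hm hmu
  have hk100 : (100 : ℝ) ≤ k := by exact_mod_cast h4
  have hk0 : (0 : ℝ) < k := by linarith
  have hlog : 0 < Real.log k := Real.log_pos (by linarith)
  rw [Real.rpow_one] at h5 h6 h7
  have hk' : (k : ℝ) ≤ (k : ℝ) ^ (1 + δ' / 2) := by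
    nth_rewrite 1 [← Real.rpow_one (k : ℝ)]
    exact Real.rpow_le_rpow_of_exponent_le (by linarith) (by linarith)
  set D : ℝ := (m : ℝ) - n with hD
  have hn0 : (0 : ℝ) ≤ n := by positivity
  have hmn : n ≤ m := by
    have : (n : ℝ) ≤ m := by linarith
    exact_mod_cast this
  have hm' : (m : ℝ) ≤ (k : ℝ) ^ d := by exact_mod_cast hm
  have hkd : (k : ℝ) ≤ (k : ℝ) ^ d := le_self_pow₀ (by linarith) (by omega)
  have hpow : 2 * (k : ℝ) ^ d ≤ (k : ℝ) ^ (d + 1) := by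
    rw [pow_succ]
    have : (0 : ℝ) < (k : ℝ) ^ d := by positivity
    nlinarith
  have c1 := h1 n m hn hmn hm hmu
  -- the oscillating part
  have c2 : ∀ ξ : ℝ, (k : ℝ) ^ (1 + δ' / 2) ≤ ξ → ξ ≤ (k : ℝ) ^ (d + 1) →
      |∑ q ∈ P k (2 * k), Real.sin (2 * Real.pi * (ξ / q))| ≤ (k : ℝ) ^ (1 - σ) := by
    intro ξ hξ1 hξ2
    exact (abs_sin_sum _ ξ).trans (h2 k (2 * k) le_rfl (by omega) le_rfl ξ hξ1 hξ2)
  have c3 := abs_le.1 (c2 (D + k / 2) (by linarith) (by linarith))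
  have c4 := abs_le.1 (c2 (D - k / 2) (by linarith) (by linarith))
  have c5 : ∑ q ∈ P k (2 * k), Real.sin (Real.pi * k / q) =
      ∑ q ∈ P k (2 * k), Real.sin (Real.pi * k / q) * (1 - Real.cos (2 * Real.pi * (D / q))) +
      1 / 2 * (∑ q ∈ P k (2 * k), Real.sin (2 * Real.pi * ((D + k / 2) / q)) -
        ∑ q ∈ P k (2 * k), Real.sin (2 * Real.pi * ((D - k / 2) / q))) := by
    rw [← sum_sub_distrib, mul_sum, ← sum_add_distrib]
    refine sum_congr rfl fun q hq => ?_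
    have hq0 : (q : ℝ) ≠ 0 := by
      have := (mem_P.1 hq).2.pos
      positivity
    have e1 : 2 * Real.pi * ((D + k / 2) / q) = 2 * Real.pi * (D / q) + Real.pi * k / q := by
      field_simp
    have e2 : 2 * Real.pi * ((D - k / 2) / q) = 2 * Real.pi * (D / q) - Real.pi * k / q := by
      field_simp
    rw [e1, e2, Real.sin_add, Real.sin_sub]
    ring
  have c6 : ∑ q ∈ P k (2 * k), Real.sin (Real.pi * k / q) ≤ (k : ℝ) ^ (1 - ρ) + (k : ℝ) ^ (1 - σ) := by
    rw [c5]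
    linarith [c3.2, c4.1]
  -- the lower bound
  set Y : ℕ := k / 2 with hY
  set N : ℕ := 2 * k - Y with hN
  have hNY : N + Y = 2 * k := by omega
  have hYr : (k : ℝ) / 2 - 1 ≤ Y := by
    have : (k : ℝ) ≤ 2 * Y + 1 := by exact_mod_cast (by omega : k ≤ 2 * Y + 1)
    linarith
  have c7 := h3 N Y (by omega) (by omega) (by linarith) (by omega)
  have c8 : ((P N (N + Y)).card : ℝ) * (2 / 3) ≤ ∑ q ∈ P k (2 * k), Real.sin (Real.pi * k / q) := by
    have hsub : P N (N + Y) ⊆ P k (2 * k) := by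
      intro q hq
      rw [mem_P] at hq ⊢
      exact ⟨⟨by omega, by omega⟩, hq.2⟩
    refine le_trans ?_ (sum_le_sum_of_subset_of_nonneg hsub fun q hq _ => ?_)
    · rw [← nsmul_eq_mul, ← sum_const]
      refine sum_le_sum fun q hq => ?_
      rw [mem_P, hNY] at hq
      have hq1 : (q : ℝ) ≤ 2 * k := by exact_mod_cast hq.1.2
      have hq2 : (3 / 2 : ℝ) * k ≤ q := by
        have : (3 : ℝ) * k ≤ 2 * q := by exact_mod_cast (by omega : 3 * k ≤ 2 * q)
        linarith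
      have hq0 : (0 : ℝ) < q := by linarith
      have e1 : Real.pi * k / q = Real.pi * (k / q) := by ring
      rw [e1]
      have := sin_lower ((k : ℝ) / q) (1 / 3) (by
        rw [le_div_iff₀ hq0]; linarith) (by rw [div_le_iff₀ hq0]; linarith) (by norm_num)
      linarith
    · exact sin_nonneg_term k q (mem_P.1 hq).1.1
  have c9 : ((P N (N + Y)).card : ℝ) ≤ 2 * ((k : ℝ) ^ (1 - ρ) + (k : ℝ) ^ (1 - σ)) := by
    have : (0 : ℝ) ≤ ((P N (N + Y)).card : ℝ) := by positivity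
    linarith
  have c10 : η * Y ≤ 2 * ((k : ℝ) ^ (1 - ρ) + (k : ℝ) ^ (1 - σ)) * Real.log k :=
    c7.trans (mul_le_mul_of_nonneg_right c9 hlog.le)
  have c11 : 18 * ((k : ℝ) ^ (1 - ρ) * Real.log k) ≤ η * k := by
    have : 18 / η * (k : ℝ) ^ (1 - ρ) * Real.log k =
      18 * ((k : ℝ) ^ (1 - ρ) * Real.log k) / η := by ring
    rw [this, div_le_iff₀ hη] at h5
    linarith
  have c12 : 18 * ((k : ℝ) ^ (1 - σ) * Real.log k) ≤ η * k := by
    have : 18 / η * (k : ℝ) ^ (1 - σ) * Real.log k =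
      18 * ((k : ℝ) ^ (1 - σ) * Real.log k) / η := by ring
    rw [this, div_le_iff₀ hη] at h6
    linarith
  have c13 : 0 < η * k := by positivity
  have c14 : η * (k / 2 - 1) ≤ η * Y := by gcongr
  have c15 : η * 1 ≤ η * (k / 100) := by
    have : (1 : ℝ) ≤ k / 100 := by linarith
    gcongr
  nlinarith

/-- close blocks -/
theorem case_close (d : ℕ) (hd : 1 ≤ d) (δ : ℝ) (hδ : 0 < δ) : ∃ δ' : ℝ, 0 < δ' ∧ ∀ᶠ k : ℕ in atTop,
    ∀ n m : ℕ, (k : ℝ) ^ (1 + δ) ≤ n → (k : ℝ) ≤ (m : ℝ) - n → (m : ℝ) - n ≤ (k : ℝ) ^ (1 + δ') →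
    m ≤ k ^ d → ¬ (∀ q : ℕ, q.Prime → k < q → mu k n q = mu k m q) := by
  obtain ⟨ρ, hρ0, hρ1, h⟩ := core_k d hd δ hδ
  obtain ⟨δ0, η, hδ0, hδ1, hη, hH⟩ := hoh_k
  set ε : ℝ := min (ρ / 2) (δ0 / 2) with hε
  have hε0 : 0 < ε := lt_min (by linarith) (by linarith)
  have hε1 : ε ≤ ρ / 2 := min_le_left _ _
  have hε2 : ε ≤ δ0 / 2 := min_le_right _ _
  refine ⟨ε, hε0, ?_⟩
  filter_upwards [h, hH, eventually_ge_atTop 100, evl (1 - ρ) (1 - ε) (20000 / η) (by linarith),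
    evp (1 - δ0) (1 - ε) 100 (by linarith), evp 0 (1 - ε) 100 (by linarith)] with k h1 h2 h3 h4 h5 h6
  intro n m hn hnm1 hnm2 hm hmu
  have hk100 : (100 : ℝ) ≤ k := by exact_mod_cast h3
  have hk0 : (0 : ℝ) < k := by linarith
  have hlog : 0 < Real.log k := Real.log_pos (by linarith)
  rw [Real.rpow_zero] at h6
  set Z : ℝ := (k : ℝ) ^ (1 - ε) with hZ
  have hZ0 : 0 < Z := by positivity
  have hZk : Z ≤ k := by
    rw [hZ]
    nth_rewrite 2 [← Real.rpow_one (k : ℝ)]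
    exact Real.rpow_le_rpow_of_exponent_le (by linarith) (by linarith)
  set D : ℝ := (m : ℝ) - n with hD
  have hDZ : D * Z ≤ k * k := by
    have h11 : (k : ℝ) ^ (1 + ε) * Z = k * k := by
      rw [hZ, ← Real.rpow_add hk0]
      have : 1 + ε + (1 - ε) = 2 := by ring
      rw [this, Real.rpow_two]; ring
    rw [← h11]
    gcongr
  have hmn : n ≤ m := by
    have : (n : ℝ) ≤ m := by linarith
    exact_mod_cast this
  have c1 := h1 n m hn hmn hm hmu
  have hD0 : 0 < D := by linarith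
  -- the centre
  obtain ⟨u, hu1, hu2, hu3, hu4⟩ : ∃ u : ℝ, D / (19 / 10 * k) ≤ u ∧ u ≤ D / (12 / 10 * k) ∧
      1 / 10 ≤ Int.fract u ∧ Int.fract u ≤ 9 / 10 := by
    set v : ℝ := D / (19 / 10 * k) with hv
    have hv2 : v + 1 / 5 ≤ D / (12 / 10 * k) := by
      rw [hv, le_div_iff₀ (by positivity)]
      have e1 : (D / (19 / 10 * k) + 1 / 5) * (12 / 10 * k) = 12 / 19 * D + 24 / 100 * k := by
        field_simp; ring
      rw [e1]; linarith
    have hf0 := Int.fract_nonneg v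
    have hf1 := Int.fract_lt_one v
    by_cases ha : 1 / 10 ≤ Int.fract v
    · by_cases hb : Int.fract v ≤ 9 / 10
      · exact ⟨v, le_rfl, by linarith, ha, hb⟩
      · refine ⟨v + 1 / 5, by linarith, hv2, ?_⟩
        have e1 : Int.fract (v + 1 / 5) = Int.fract v + 1 / 5 - 1 := by
          rw [Int.fract_eq_iff]
          refine ⟨by linarith, by linarith, ⌊v⌋ + 1, ?_⟩
          unfold Int.fract; push_cast; ring
        rw [e1]
        constructor <;> linarith
    · refine ⟨v + 1 / 5, by linarith, hv2, ?_⟩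
      have e1 : Int.fract (v + 1 / 5) = Int.fract v + 1 / 5 := by
        rw [Int.fract_eq_iff]
        refine ⟨by linarith, by linarith, ⌊v⌋, ?_⟩
        unfold Int.fract; ring
      rw [e1]
      constructor <;> linarith
  have hu0 : 0 < u := lt_of_lt_of_le (by positivity) hu1
  set j : ℝ := D / u with hj
  have hj1 : 12 / 10 * k ≤ j := by
    rw [hj, le_div_iff₀ hu0]
    rw [le_div_iff₀ (by positivity)] at hu2
    linarith
  have hj2 : j ≤ 19 / 10 * k := by
    rw [hj, div_le_iff₀ hu0]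
    rw [div_le_iff₀ (by positivity)] at hu1
    linarith
  have hj0 : 0 < j := by linarith
  have hju : D / j = u := by rw [hj]; field_simp
  -- the interval
  set Y : ℕ := ⌊Z / 50⌋₊ with hY
  have hY1 : (Y : ℝ) ≤ Z / 50 := Nat.floor_le (by positivity)
  have hY2 : Z / 50 - 1 ≤ Y := by
    have := Nat.lt_floor_add_one (Z / 50)
    linarith
  have hY3 : Z / 100 ≤ Y := by linarith
  have hjf1 : ((⌊j⌋₊ : ℕ) : ℝ) ≤ j := Nat.floor_le hj0.le
  have hjf2 : j - 1 ≤ ((⌊j⌋₊ : ℕ) : ℝ) := by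
    have := Nat.lt_floor_add_one j
    linarith
  have hYj : Y ≤ ⌊j⌋₊ := by
    have : (Y : ℝ) ≤ ((⌊j⌋₊ : ℕ) : ℝ) := by linarith
    exact_mod_cast this
  set N : ℕ := ⌊j⌋₊ - Y with hN
  have hNr : (N : ℝ) = ((⌊j⌋₊ : ℕ) : ℝ) - Y := by rw [hN, Nat.cast_sub hYj]
  have hNY : N + Y = ⌊j⌋₊ := by omega
  have hN1 : 115 / 100 * (k : ℝ) ≤ N := by rw [hNr]; linarith
  have hN2 : k ≤ N := by
    have : (k : ℝ) ≤ N := by linarith
    exact_mod_cast this
  have hN3 : (N : ℝ) ≤ 4 * k := by rw [hNr]; linarith [show (0 : ℝ) ≤ Y by positivity]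
  have hN4 : N ≤ 4 * k := by exact_mod_cast hN3
  have hYN : Y ≤ N := by
    have : (Y : ℝ) ≤ N := by linarith
    exact_mod_cast this
  have c7 := h2 N Y hN2 hN4 (by linarith) hYN
  -- the lower bound
  have c8 : ((P N (N + Y)).card : ℝ) * (1 / 100) ≤ ∑ q ∈ P k (2 * k), Real.sin (Real.pi * k / q) *
      (1 - Real.cos (2 * Real.pi * (D / q))) := by
    have hsub : P N (N + Y) ⊆ P k (2 * k) := by
      intro q hq
      rw [mem_P, hNY] at hq
      rw [mem_P]
      have h8 : (q : ℝ) ≤ ((⌊j⌋₊ : ℕ) : ℝ) := by exact_mod_cast hq.1.2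
      have h9 : (q : ℝ) ≤ 2 * k := by linarith
      exact ⟨⟨by omega, by exact_mod_cast h9⟩, hq.2⟩
    refine le_trans ?_ (sum_le_sum_of_subset_of_nonneg hsub fun q hq _ => ?_)
    · rw [← nsmul_eq_mul, ← sum_const]
      refine sum_le_sum fun q hq => ?_
      rw [mem_P, hNY] at hq
      have hq1 : (q : ℝ) ≤ ((⌊j⌋₊ : ℕ) : ℝ) := by exact_mod_cast hq.1.2
      have hq2 : (N : ℝ) + 1 ≤ q := by exact_mod_cast hq.1.1
      have hq3 : (q : ℝ) ≤ j := by linarith
      have hq4 : j - Y ≤ q := by rw [hNr] at hq2; linarith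
      have hq5 : 115 / 100 * (k : ℝ) ≤ q := by linarith
      have hq0 : (0 : ℝ) < q := by linarith
      have f1 : 1 / 5 ≤ Real.sin (Real.pi * k / q) := by
        have e1 : Real.pi * k / q = Real.pi * (k / q) := by ring
        rw [e1]
        have := sin_lower ((k : ℝ) / q) (1 / 10) (by
          rw [le_div_iff₀ hq0]; linarith) (by rw [div_le_iff₀ hq0]; linarith) (by norm_num)
        linarith
      have f2 : u ≤ D / q := by
        rw [← hju]
        gcongr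
      have f3 : D / q ≤ u + 1 / 50 := by
        rw [div_le_iff₀ hq0]
        have g1 : D = u * j := by rw [← hju]; field_simp
        have g2 : u * (j - q) ≤ u * Y := by
          apply mul_le_mul_of_nonneg_left (by linarith) hu0.le
        have g3 : u * Y ≤ q / 50 := by
          have g4 : u * Y ≤ u * (Z / 50) := by gcongr
          have g5 : u * (12 / 10 * k) ≤ D := by
            rw [le_div_iff₀ (by positivity)] at hu2
            exact hu2
          have g6 : u * Z * (12 / 10 * k) ≤ k * k := by nlinarith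
          have g7 : u * Z ≤ k := by
            have g8 : u * Z * k ≤ k * k := by nlinarith [mul_pos hu0 hZ0]
            exact le_of_mul_le_mul_right g8 hk0
          linarith
        nlinarith
      have f4 : Int.fract (D / q) = Int.fract u + (D / q - u) := by
        rw [Int.fract_eq_iff]
        refine ⟨by linarith, by linarith, ⌊u⌋, ?_⟩
        unfold Int.fract; ring
      have f5 := cos_lower (D / q) (8 / 100) (by rw [f4]; linarith) (by rw [f4]; linarith)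
        (by norm_num)
      have f6 : (1 / 20 : ℝ) ≤ 1 - Real.cos (2 * Real.pi * (D / q)) := by
        refine le_trans ?_ f5
        norm_num
      calc (1 / 100 : ℝ) = 1 / 5 * (1 / 20) := by norm_num
        _ ≤ _ := mul_le_mul f1 f6 (by norm_num) (by linarith)
    · refine mul_nonneg (sin_nonneg_term k q (mem_P.1 hq).1.1) ?_
      have := Real.cos_le_one (2 * Real.pi * (D / q))
      linarith
  have c9 : ((P N (N + Y)).card : ℝ) ≤ 100 * (k : ℝ) ^ (1 - ρ) := by linarith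
  have c10 : η * Y ≤ 100 * (k : ℝ) ^ (1 - ρ) * Real.log k :=
    c7.trans (mul_le_mul_of_nonneg_right c9 hlog.le)
  have c11 : 20000 * ((k : ℝ) ^ (1 - ρ) * Real.log k) ≤ η * Z := by
    have : 20000 / η * (k : ℝ) ^ (1 - ρ) * Real.log k =
      20000 * ((k : ℝ) ^ (1 - ρ) * Real.log k) / η := by ring
    rw [this, div_le_iff₀ hη] at h4
    linarith
  have c12 : 0 < (k : ℝ) ^ (1 - ρ) * Real.log k := by positivity
  have c13 : η * (Z / 100) ≤ η * Y := by gcongr
  nlinarith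

/-- a prime in the upper block, when the upper block is low -/
theorem case_low : ∃ δ : ℝ, 0 < δ ∧ ∀ᶠ k : ℕ in atTop, ∀ n m : ℕ, n + k ≤ m →
    (m : ℝ) < (k : ℝ) ^ (1 + δ) → ¬ (∀ q : ℕ, q.Prime → k < q → mu k n q = mu k m q) := by
  obtain ⟨δ, η, hδ0, hδ1, hη, X₀, hX, h⟩ := hoh
  refine ⟨δ, hδ0, ?_⟩
  filter_upwards [eventually_ge_atTop (X₀ + 2)] with k hk
  intro n m hnm hm hmu
  have hk2 : (2 : ℝ) ≤ k := by exact_mod_cast (by omega : 2 ≤ k)
  have hkm : (k : ℝ) ≤ m := by exact_mod_cast (by omega : k ≤ m)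
  have hm0 : (0 : ℝ) < m := by linarith
  have h1 : (m : ℝ) ^ (1 - δ) ≤ k := by
    calc (m : ℝ) ^ (1 - δ) ≤ ((k : ℝ) ^ (1 + δ)) ^ (1 - δ) :=
          Real.rpow_le_rpow hm0.le hm.le (by linarith)
      _ = (k : ℝ) ^ ((1 + δ) * (1 - δ)) := by rw [← Real.rpow_mul (by linarith)]
      _ ≤ (k : ℝ) ^ (1 : ℝ) := Real.rpow_le_rpow_of_exponent_le (by linarith) (by nlinarith)
      _ = k := Real.rpow_one _
  have h2 := h m k (by omega) h1 (by omega)
  have hlog : 0 < Real.log m := Real.log_pos (by linarith)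
  have h3 : 0 < (((Ioc m (m + k)).filter Nat.Prime).card : ℝ) :=
    lt_of_lt_of_le (by positivity) h2
  have h4 : 0 < ((Ioc m (m + k)).filter Nat.Prime).card := by exact_mod_cast h3
  obtain ⟨q, hq⟩ := card_pos.1 h4
  rw [mem_filter, mem_Ioc] at hq
  have h5 := hmu q hq.2 (by omega)
  rw [mu_zero k n q (by omega), mu_one k m q 1 (by omega) (by omega) (by omega)] at h5
  omega

/-- the support theorem -/
theorem supp (d : ℕ) : ∃ k₀ : ℕ, ∀ k : ℕ, k₀ ≤ k → ∀ n m : ℕ, n + k ≤ m → m ≤ k ^ d →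
    ∃ q : ℕ, q.Prime ∧ k < q ∧
      ¬ ((∃ i, n < i ∧ i ≤ n + k ∧ q ∣ i) ↔ (∃ i, m < i ∧ i ≤ m + k ∧ q ∣ i)) := by
  obtain ⟨δ0, hδ0, hlow⟩ := case_low
  have hd1 : 1 ≤ d + 1 := by omega
  have hsmall := case_small (d + 1) hd1 δ0 hδ0
  obtain ⟨ε, hε0, hmid⟩ := case_mid (d + 1) hd1 δ0 hδ0
  obtain ⟨δ', hδ', hclose⟩ := case_close (d + 1) hd1 ε hε0
  have hfar := case_far (d + 1) hd1 ε δ' hε0 hδ'
  obtain ⟨k₀, hk₀⟩ := eventually_atTop.1 (hlow.and (hsmall.and (hmid.and (hclose.and (hfar.and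
    (eventually_ge_atTop 1))))))
  refine ⟨k₀, fun k hk n m hnm hm => ?_⟩
  obtain ⟨h1, h2, h3, h4, h5, h6⟩ := hk₀ k hk
  have hm' : m ≤ k ^ (d + 1) := hm.trans (Nat.pow_le_pow_right h6 (by omega))
  by_contra hcon
  push Not at hcon
  have hmu : ∀ q : ℕ, q.Prime → k < q → mu k n q = mu k m q := by
    intro q hq hkq
    exact mu_congr k n m q hkq (by
      have := hcon q hq hkq
      exact this)
  by_cases a1 : (m : ℝ) < (k : ℝ) ^ (1 + δ0)
  · exact h1 n m hnm a1 hmu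
  rw [not_lt] at a1
  by_cases a2 : 4 * n < k
  · exact h2 n m a2 a1 hm' hmu
  rw [not_lt] at a2
  by_cases a3 : (n : ℝ) ≤ (k : ℝ) ^ (1 + ε)
  · exact h3 n m a2 a3 a1 hm' hmu
  rw [not_le] at a3
  have hnm' : (k : ℝ) ≤ (m : ℝ) - n := by
    have : (n : ℝ) + k ≤ m := by exact_mod_cast hnm
    linarith
  by_cases a4 : (m : ℝ) - n ≤ (k : ℝ) ^ (1 + δ')
  · exact h4 n m a3.le hnm' a4 hm' hmu
  · exact h5 n m a3.le (not_le.1 a4).le hm' hmu

end Pool.Agent.W5h31.LC
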